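import Pool.Agent.H489.CU.A5
import Pool.Agent.H489.CU.U7

/-!
Real parts along the imaginary periods.
-/

open Complex Filter Topology ComplexConjugate

namespace Pool.Agent.H489.EX

open Pool.Agent.H489.CU

/-- analytic logarithm -/
lemma an_log {f : ℂ → ℂ} (hf : AnalyticAt ℂ f 0) (h0 : f 0 ≠ 0) :
    ∃ L : ℂ → ℂ, AnalyticAt ℂ L 0 ∧ ∀ᶠ t in 𝓝 (0 : ℂ), exp (L t) = f t := by
  refine ⟨fun t => log (f t / f 0) + log (f 0), ?_, ?_⟩
  · have h1 : AnalyticAt ℂ (fun t => f t / f 0) 0 := hf.div analyticAt_const h0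
    exact (h1.clog (by simp [div_self h0])).add analyticAt_const
  · filter_upwards [hf.continuousAt.eventually_ne h0] with t ht
    rw [exp_add, exp_log (div_ne_zero ht h0), exp_log h0, div_mul_cancel₀ _ h0]

/-- local inverse -/
lemma an_inv {F : ℂ → ℂ} (hF : AnalyticAt ℂ F 0) (h0 : F 0 = 0) (h1 : deriv F 0 ≠ 0) :
    ∃ ψ : ℂ → ℂ, AnalyticAt ℂ ψ 0 ∧ ψ 0 = 0 ∧ ∀ᶠ t in 𝓝 (0 : ℂ), ψ (F t) = t := by
  have hs : HasStrictDerivAt F (deriv F 0) 0 := hF.hasStrictDerivAt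
  have h2 := hF.analyticAt_localInverse h1
  have h3 := hs.eventually_left_inverse h1
  rw [h0] at h2
  refine ⟨_, h2, ?_, h3⟩
  have h4 := h3.self_of_nhds
  rw [h0] at h4
  exact h4

lemma cc_mero {f : ℂ → ℂ} (hf : MeromorphicAt f 0) : MeromorphicAt (cc f) 0 := by
  obtain ⟨n, hn⟩ := hf
  refine ⟨n, ?_⟩
  have h1 := cc_an hn
  refine h1.congr (Eventually.of_forall fun z => ?_)
  simp [cc, smul_eq_mul, map_mul, map_pow, sub_zero]

/-- case A: a pole -/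
theorem lemA (U : Ultrafilter ℂ) (h : Str (U : Filter ℂ)) {e : ℕ} (he : 0 < e) {p : ℕ}
    (hp : 0 < p) {g β ξ : ℂ → ℂ} (hg : AnalyticAt ℂ g 0) (hg0 : g 0 ≠ 0)
    (hβ : AnalyticAt ℂ β 0) (hβ0 : β 0 ≠ 0)
    (hv : ∀ᶠ s in (U : Filter ℂ), exp (((tt e s) ^ p)⁻¹ * g (tt e s)) = β (tt e s))
    (hξ : MeromorphicAt ξ 0) {C : ℝ}
    (hC : ∀ᶠ s : ℂ in (U : Filter ℂ), |(ξ (tt e s)).re| ≤ C * s.re) :
    ∃ B : ℝ, ∀ᶠ s in (U : Filter ℂ), |(ξ (tt e s)).re| ≤ B := by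
  obtain ⟨L, hL, hLe⟩ := an_log hβ hβ0
  set G₁ : ℂ → ℂ := fun t => g t - t ^ p * L t with hG₁
  have hG₁a : AnalyticAt ℂ G₁ 0 := hg.sub ((analyticAt_id.pow p).mul hL)
  have hG₁0 : G₁ 0 ≠ 0 := by simp [hG₁, hp.ne', hg0]
  obtain ⟨ℓ, hℓ, hℓe⟩ := an_log hG₁a hG₁0
  have hp' : (p : ℂ) ≠ 0 := by exact_mod_cast hp.ne'
  obtain ⟨r, hr⟩ : ∃ r : ℂ → ℂ, r = fun t => exp (-(ℓ t) / p) := ⟨_, rfl⟩
  have hra : AnalyticAt ℂ r 0 := by
    rw [hr]
    exact (hℓ.neg.div analyticAt_const hp').cexp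
  have hr0 : r 0 ≠ 0 := by
    rw [hr]
    exact exp_ne_zero _
  have hrp : ∀ᶠ t in 𝓝 (0 : ℂ), r t ^ p * G₁ t = 1 := by
    filter_upwards [hℓe] with t ht
    rw [← ht, hr]
    simp only
    rw [← exp_nat_mul, ← exp_add]
    have : (p : ℂ) * (-(ℓ t) / p) + ℓ t = 0 := by
      field_simp
      ring
    rw [this, exp_zero]
  obtain ⟨F, hF⟩ : ∃ F : ℂ → ℂ, F = fun t => t * r t := ⟨_, rfl⟩
  have hFa : AnalyticAt ℂ F 0 := by
    rw [hF]
    exact analyticAt_id.mul hra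
  have hF0 : F 0 = 0 := by rw [hF]; simp
  have hFd : deriv F 0 ≠ 0 := by
    have h1 : HasDerivAt F (1 * r 0 + 0 * deriv r 0) 0 := by
      rw [hF]
      exact (hasDerivAt_id (0 : ℂ)).mul hra.differentiableAt.hasDerivAt
    rw [h1.deriv]
    simpa using hr0
  obtain ⟨ψ, hψ, hψ0, hψF⟩ := an_inv hFa hF0 hFd
  -- the values
  have hval : ∀ᶠ s in (U : Filter ℂ), ∃ ω ∈ {ω : ℂ | ω ^ (2 * p) = -1},
      F (tt e s) = ‖F (tt e s)‖ * ω := by
    filter_upwards [hv, (h.zero' he).eventually hLe, (h.zero' he).eventually hrp] with s a1 a2 a3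
    have ht := tt_ne e s
    set t := tt e s with ht_def
    have hrt : r t ≠ 0 := by rw [hr]; exact exp_ne_zero _
    have hFt : F t ≠ 0 := by
      rw [hF]
      exact mul_ne_zero ht hrt
    have h1 : exp ((t ^ p)⁻¹ * G₁ t) = 1 := by
      have : (t ^ p)⁻¹ * G₁ t = (t ^ p)⁻¹ * g t - L t := by
        simp only [hG₁]
        field_simp
      rw [this, exp_sub, a1, a2, div_self]
      rw [← a2]
      exact exp_ne_zero _
    rw [exp_eq_one_iff] at h1
    obtain ⟨k, hk⟩ := h1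
    have h2 : (F t) ^ p * (k * (2 * Real.pi * I)) = 1 := by
      rw [← hk, hF]
      simp only
      rw [mul_pow]
      have : t ^ p * r t ^ p * ((t ^ p)⁻¹ * G₁ t) = r t ^ p * G₁ t := by
        field_simp
      rw [this, a3]
    have h3 : (F t) ^ (2 * p) * (((k * (2 * Real.pi) : ℝ)) ^ 2 : ℝ) = -1 := by
      have : (F t) ^ (2 * p) * (((k * (2 * Real.pi) : ℝ)) ^ 2 : ℝ) =
          -((F t) ^ p * (k * (2 * Real.pi * I))) ^ 2 := by
        push_cast
        have hI : I ^ 2 = -1 := I_sq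
        rw [mul_comm 2 p, pow_mul]
        linear_combination (((F t) ^ p) ^ 2 * (k * (2 * Real.pi)) ^ 2) * hI
      rw [this, h2]
      norm_num
    have h4 : ‖F t‖ ^ (2 * p) * ((k * (2 * Real.pi) : ℝ)) ^ 2 = 1 := by
      have := congrArg norm h3
      rw [norm_mul, norm_pow, norm_neg, norm_one, norm_real, Real.norm_of_nonneg (sq_nonneg _)]
        at this
      exact this
    have hn : (‖F t‖ : ℂ) ≠ 0 := by
      exact_mod_cast (norm_pos_iff.2 hFt).ne'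
    refine ⟨F t / ‖F t‖, ?_, by field_simp⟩
    show (F t / ‖F t‖) ^ (2 * p) = -1
    have h5 : (‖F t‖ : ℂ) ^ (2 * p) * (((k * (2 * Real.pi) : ℝ)) ^ 2 : ℝ) = 1 := by
      exact_mod_cast h4
    rw [div_pow, div_eq_iff (pow_ne_zero _ hn)]
    have h6 : (((k * (2 * Real.pi) : ℝ)) ^ 2 : ℝ) ≠ (0 : ℂ) := by
      intro h0
      rw [h0, mul_zero] at h5
      exact zero_ne_one h5
    apply mul_right_cancel₀ h6
    rw [h3, neg_one_mul, neg_mul, h5]
  have hfin : {ω : ℂ | ω ^ (2 * p) = -1}.Finite := by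
    refine ((Polynomial.nthRoots (2 * p) (-1 : ℂ)).toFinset.finite_toSet).subset fun ω hω => ?_
    rw [Finset.mem_coe, Multiset.mem_toFinset, Polynomial.mem_nthRoots (by omega)]
    exact hω
  rw [Ultrafilter.eventually_exists_mem_iff hfin] at hval
  obtain ⟨ω, -, hω⟩ := hval
  -- the function of a real variable
  obtain ⟨f, hf⟩ : ∃ f : ℂ → ℂ, f = fun z => ξ (ψ (z * ω)) := ⟨_, rfl⟩
  have hfm : MeromorphicAt f 0 := by
    rw [hf]
    have h1 : AnalyticAt ℂ (fun z : ℂ => z * ω) 0 := analyticAt_id.mul analyticAt_const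
    have h2 : AnalyticAt ℂ (fun z : ℂ => ψ (z * ω)) 0 := by
      apply AnalyticAt.fun_comp (g := ψ) (f := fun z : ℂ => z * ω) _ h1
      simpa using hψ
    refine MeromorphicAt.comp_analyticAt (f := ξ) (g := fun z : ℂ => ψ (z * ω)) ?_ h2
    simpa [hψ0] using hξ
  obtain ⟨Φ, hΦ⟩ : ∃ Φ : ℂ → ℂ, Φ = fun z => f z + cc f z := ⟨_, rfl⟩
  have hΦm : MeromorphicAt Φ 0 := by
    rw [hΦ]
    exact hfm.add (cc_mero hfm)
  have hΦv : ∀ᶠ s in (U : Filter ℂ), Φ ‖F (tt e s)‖ = ((2 * (ξ (tt e s)).re : ℝ) : ℂ) := by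
    filter_upwards [hω, (h.zero' he).eventually hψF] with s a1 a2
    have h1 : f ‖F (tt e s)‖ = ξ (tt e s) := by
      rw [hf]
      simp only
      rw [← a1, a2]
    rw [hΦ]
    simp only [cc, conj_ofReal]
    rw [h1, add_conj]
  have hρ : Tendsto (fun s => ((‖F (tt e s)‖ : ℝ) : ℂ)) (U : Filter ℂ) (𝓝[≠] 0) := by
    refine tendsto_nhdsWithin_iff.2 ⟨?_, ?_⟩
    · have h1 := (h.lim he hFa).norm
      rw [hF0, norm_zero] at h1
      have h2 := (continuous_ofReal.tendsto (0 : ℝ)).comp h1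
      rw [ofReal_zero] at h2
      exact h2
    · refine Eventually.of_forall fun s => ?_
      have : F (tt e s) ≠ 0 := by
        rw [hF, hr]
        exact mul_ne_zero (tt_ne e s) (exp_ne_zero _)
      show ((‖F (tt e s)‖ : ℝ) : ℂ) ≠ 0
      exact_mod_cast (norm_pos_iff.2 this).ne'
  by_cases htop : meromorphicOrderAt Φ 0 = ⊤
  · rw [meromorphicOrderAt_eq_top_iff] at htop
    refine ⟨0, ?_⟩
    filter_upwards [hΦv, hρ.eventually htop] with s a1 a2
    rw [a1] at a2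
    have : 2 * (ξ (tt e s)).re = 0 := by exact_mod_cast a2
    rw [abs_nonpos_iff]
    linarith
  · obtain ⟨g₂, hg₂, hg₂0, hge⟩ := (meromorphicOrderAt_ne_top_iff hΦm).1 htop
    set n := (meromorphicOrderAt Φ 0).untop₀ with hn_def
    have hge' : ∀ᶠ s in (U : Filter ℂ), ((2 * (ξ (tt e s)).re : ℝ) : ℂ) =
        ((‖F (tt e s)‖ : ℝ) : ℂ) ^ n * g₂ ((‖F (tt e s)‖ : ℝ) : ℂ) := by
      filter_upwards [hΦv, hρ.eventually hge] with s a1 a2
      rw [← a1, a2, sub_zero, smul_eq_mul]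
    have hg₂l : Tendsto (fun s => ‖g₂ ((‖F (tt e s)‖ : ℝ) : ℂ)‖) (U : Filter ℂ) (𝓝 ‖g₂ 0‖) :=
      (hg₂.continuousAt.tendsto.comp (hρ.mono_right nhdsWithin_le_nhds)).norm
    have hFl : Tendsto (fun s => ‖F (tt e s)‖) (U : Filter ℂ) (𝓝 0) := by
      have h1 := (h.lim he hFa).norm
      rwa [hF0, norm_zero] at h1
    have habs : ∀ᶠ s in (U : Filter ℂ), 2 * |(ξ (tt e s)).re| =
        ‖F (tt e s)‖ ^ n * ‖g₂ ((‖F (tt e s)‖ : ℝ) : ℂ)‖ := by
      filter_upwards [hge'] with s a1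
      have := congrArg norm a1
      rw [norm_mul, norm_zpow, norm_real, norm_real, norm_norm, Real.norm_eq_abs, abs_mul,
        abs_two] at this
      exact this
    rcases lt_or_ge n 0 with hn | hn
    · exfalso
      -- too large
      have hc : 0 < ‖g₂ 0‖ := norm_pos_iff.2 hg₂0
      have hlow : ∀ᶠ s : ℂ in (U : Filter ℂ), ‖g₂ 0‖ / 2 ≤
          2 * |C| * (‖r 0‖ + 1) * (‖tt e s‖ * s.re ^ 1) := by
        filter_upwards [habs, hC, hg₂l.eventually_const_le (show ‖g₂ 0‖ / 2 < ‖g₂ 0‖ by linarith),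
          hFl.eventually_lt_const one_pos, h.re.eventually_ge_atTop 0,
          ((h.lim he hra).norm).eventually_lt_const (lt_add_one _)] with s a1 a2 a3 a4 a5 a6
        have hFp : 0 < ‖F (tt e s)‖ := by
          rw [norm_pos_iff, hF, hr]
          exact mul_ne_zero (tt_ne e s) (exp_ne_zero _)
        have h1 : ‖F (tt e s)‖⁻¹ ≤ ‖F (tt e s)‖ ^ n := by
          rw [← zpow_neg_one]
          exact zpow_le_zpow_right_of_le_one₀ hFp a4.le (by omega)
        have h2 : ‖F (tt e s)‖⁻¹ * (‖g₂ 0‖ / 2) ≤ 2 * (|C| * s.re) := by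
          calc ‖F (tt e s)‖⁻¹ * (‖g₂ 0‖ / 2) ≤
                ‖F (tt e s)‖ ^ n * ‖g₂ ((‖F (tt e s)‖ : ℝ) : ℂ)‖ := by gcongr
            _ = 2 * |(ξ (tt e s)).re| := a1.symm
            _ ≤ 2 * (|C| * s.re) := by
                have : C * s.re ≤ |C| * s.re := mul_le_mul_of_nonneg_right (le_abs_self _) a5
                linarith
        have h3 : ‖F (tt e s)‖ ≤ ‖tt e s‖ * (‖r 0‖ + 1) := by
          rw [hF]
          simp only
          rw [norm_mul]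
          gcongr
        rw [inv_mul_le_iff₀ hFp] at h2
        calc ‖g₂ 0‖ / 2 ≤ ‖F (tt e s)‖ * (2 * (|C| * s.re)) := h2
          _ ≤ (‖tt e s‖ * (‖r 0‖ + 1)) * (2 * (|C| * s.re)) := by gcongr
          _ = _ := by ring
      have hlim := (h.pow he 1).const_mul (2 * |C| * (‖r 0‖ + 1))
      rw [mul_zero] at hlim
      have hU := h.ne
      obtain ⟨s, a1, a2⟩ := (hlow.and (hlim.eventually_lt_const
        (show (0 : ℝ) < ‖g₂ 0‖ / 2 by linarith))).exists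
      linarith
    · refine ⟨‖g₂ 0‖ + 1, ?_⟩
      filter_upwards [habs, hg₂l.eventually_lt_const (lt_add_one _),
        hFl.eventually_lt_const one_pos] with s a1 a3 a4
      have h1 : ‖F (tt e s)‖ ^ n ≤ 1 := by
        obtain ⟨m, hm⟩ := Int.eq_ofNat_of_zero_le hn
        rw [hm, zpow_natCast]
        exact pow_le_one₀ (norm_nonneg _) a4.le
      have h2 := mul_le_mul h1 a3.le (norm_nonneg _) zero_le_one
      have h3 := abs_nonneg (ξ (tt e s)).re
      linarith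

end Pool.Agent.H489.EX
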