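import Pool.Agent.H489.EX.A
import Pool.Graph.R_seed8.H340R2.LW2

/-!
Counterexamples to Schanuel's conjecture along an ultrafilter.
-/

open Complex Filter Topology Polynomial
open scoped Polynomial.Bivariate

namespace Pool.Agent.H489.EX

open Pool.Agent.H489.CU

/-- the theorem of Hermite and Lindemann -/
lemma hl {x : ℂ} (hx : IsAlgebraic ℤ x) (he : IsAlgebraic ℤ (exp x)) : x = 0 := by
  rw [alg_iff] at hx he
  by_contra h0
  have h1 := Pool.Agent.H340R2.LW.lindemann_weierstrass (Finset.univ : Finset (Fin 2))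
    ![0, x] ![exp x, -1] (by
      intro i _
      fin_cases i
      · exact isAlgebraic_zero
      · exact hx) (by
      intro i _
      fin_cases i
      · exact he
      · exact isAlgebraic_one.neg) (by
      intro i _ j _ hij
      fin_cases i <;> fin_cases j
      · rfl
      · exact absurd hij.symm h0
      · exact absurd hij h0
      · rfl) (by simp [Fin.sum_univ_two]) 1 (Finset.mem_univ _)
  simp at h1

lemma lc_ne {Q : ℤ[X][Y]} (hQ : Q ≠ 0) {b : ℂ → ℂ} {𝓖 : Filter ℂ}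
    (hbc : ∀ v : ℂ, ∀ᶠ z in 𝓖, b z ≠ v) : ∀ᶠ z in 𝓖, aeval (b z) Q.leadingCoeff ≠ 0 := by
  filter_upwards [(Filter.eventually_all_finite (roots_fin hQ)).2 fun v _ => hbc v] with z hz h0
  exact hz (b z) h0 rfl

lemma inv_ne {e : ℕ} (he : 0 < e) (v : ℂ) : ∀ᶠ t in 𝓝[≠] (0 : ℂ), (t ^ e)⁻¹ ≠ v := by
  by_cases hv : v = 0
  · filter_upwards [self_mem_nhdsWithin] with t ht
    rw [hv]
    exact inv_ne_zero (pow_ne_zero _ ht)
  · apply nhdsWithin_le_nhds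
    have : ∀ᶠ t in 𝓝 (0 : ℂ), t ^ e ≠ v⁻¹ := by
      have h1 : ContinuousAt (fun t : ℂ => t ^ e) 0 := by fun_prop
      refine h1.eventually_ne ?_
      rw [zero_pow he.ne']
      exact (inv_ne_zero hv).symm
    filter_upwards [this] with t ht h0
    apply ht
    rw [← h0, inv_inv]

lemma alg_step {Q : ℤ[X][Y]} {y v : ℂ} (hy : IsAlgebraic ℤ y) (hne : aeval y Q.leadingCoeff ≠ 0)
    (h : evZ Q y v = 0) : IsAlgebraic ℤ v := by
  by_contra hv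
  exact hne (coord_alg hy hv h)

lemma alg_zpow {x : ℂ} (hx : IsAlgebraic ℚ x) (n : ℤ) : IsAlgebraic ℚ (x ^ n) := by
  cases n with
  | ofNat m =>
    rw [Int.ofNat_eq_natCast, zpow_natCast]
    exact hx.pow m
  | negSucc m =>
    rw [zpow_negSucc]
    exact (hx.pow _).inv

/-- case B: no pole -/
theorem lemB {e : ℕ} (he : 0 < e) {P Q R : ℤ[X][Y]} (hP : P ≠ 0) (hQ : Q ≠ 0) (hR : R ≠ 0)
    {a A D : ℂ → ℂ} (hac : ∀ v : ℂ, ∀ᶠ t in 𝓝[≠] (0 : ℂ), a t ≠ v)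
    (hP' : ∀ᶠ t in 𝓝[≠] (0 : ℂ), evZ P ((t ^ e)⁻¹) (a t) = 0)
    (hQ' : ∀ᶠ t in 𝓝[≠] (0 : ℂ), evZ Q ((t ^ e)⁻¹) (A t) = 0)
    (hR' : ∀ᶠ t in 𝓝[≠] (0 : ℂ), evZ R (a t) (D t) = 0)
    {M L : ℤ} {α : ℂ → ℂ} (hα : ∀ᶠ t in 𝓝[≠] (0 : ℂ), α t = M * a t - L * (t ^ e)⁻¹)
    (hα0 : ∀ᶠ t in 𝓝[≠] (0 : ℂ), α t ≠ 0)
    (hexp : ∀ᶠ t in 𝓝[≠] (0 : ℂ), exp (α t) = D t ^ M * A t ^ (-L)) : False := by
  have h1 : Tendsto (fun n : ℕ => ((n : ℂ) + 1)⁻¹) atTop (𝓝[≠] 0) := by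
    refine tendsto_nhdsWithin_iff.2 ⟨?_, ?_⟩
    · have := tendsto_one_div_add_atTop_nhds_zero_nat (𝕜 := ℂ)
      simpa [one_div] using this
    · refine Eventually.of_forall fun n => ?_
      show ((n : ℂ) + 1)⁻¹ ≠ 0
      exact inv_ne_zero (by exact_mod_cast Nat.succ_ne_zero n)
  obtain ⟨n, a1, a2, a3, a4, a5, a6, a7, a8, a9⟩ := (h1.eventually (hP'.and (hQ'.and (hR'.and
    (hα.and (hα0.and (hexp.and ((lc_ne hP (inv_ne he)).and ((lc_ne hQ (inv_ne he)).and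
      (lc_ne hR hac)))))))))).exists
  set t : ℂ := ((n : ℂ) + 1)⁻¹ with ht
  have hx : IsAlgebraic ℤ ((t ^ e)⁻¹) := by
    have : (t ^ e)⁻¹ = algebraMap ℤ ℂ (((n : ℤ) + 1) ^ e) := by
      rw [ht]
      simp
    rw [this]
    exact isAlgebraic_algebraMap _
  have hat : IsAlgebraic ℤ (a t) := alg_step hx a7 a1
  have hAt : IsAlgebraic ℤ (A t) := alg_step hx a8 a2
  have hDt : IsAlgebraic ℤ (D t) := alg_step hat a9 a3
  have hαt : IsAlgebraic ℤ (α t) := by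
    rw [a4]
    exact ((isAlgebraic_intCast M).mul hat).sub ((isAlgebraic_intCast L).mul hx)
  have hβt : IsAlgebraic ℤ (exp (α t)) := by
    rw [a6]
    rw [alg_iff] at hAt hDt ⊢
    exact (alg_zpow hDt M).mul (alg_zpow hAt (-L))
  exact a5 (hl hαt hβt)

end Pool.Agent.H489.EX
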