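import Pool.Agent.H489.EX.B

/-!
Counterexamples to Schanuel's conjecture along an ultrafilter.
-/

open Complex Filter Topology Polynomial
open scoped Polynomial.Bivariate

namespace Pool.Agent.H489.EX

open Pool.Agent.H489.CU

/-- along an ultrafilter the real parts are bounded -/
theorem mainE (U : Ultrafilter ℂ) (h : Str (U : Filter ℂ)) {P Q R : ℤ[X][Y]}
    (hP : P ≠ 0) (hQ : Q ≠ 0) (hR : R ≠ 0) {z : ℂ → ℂ}
    (hP' : ∀ᶠ s in (U : Filter ℂ), evZ P (exp s) (z s) = 0)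
    (hQ' : ∀ᶠ s in (U : Filter ℂ), evZ Q (exp s) (exp (exp s)) = 0)
    (hR' : ∀ᶠ s in (U : Filter ℂ), evZ R (z s) (exp (z s)) = 0)
    (hzt : ∀ᶠ s in (U : Filter ℂ), Transcendental ℤ (z s))
    (hind : ∀ᶠ s in (U : Filter ℂ), ∀ M L : ℤ, (M : ℂ) * z s - L * exp s = 0 → M = 0) :
    ∃ B : ℝ, ∀ᶠ s in (U : Filter ℂ), |(exp s).re| ≤ B := by
  have hU := h.ne
  -- Puiseux
  have hinv : ∀ v : ℂ, ∀ᶠ t in 𝓝[≠] (0 : ℂ), t⁻¹ ≠ v := by
    intro v
    simpa using inv_ne one_pos v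
  have hinvm : MeromorphicAt (fun t : ℂ => t⁻¹) 0 := analyticAt_id.meromorphicAt.inv
  have hexp1 : ∀ s : ℂ, (tt 1 s)⁻¹ = exp s := by
    intro s
    rw [exp_inv_pow one_pos, pow_one]
  obtain ⟨N₁, a₁, hN₁, ha₁, hz₁⟩ := pz U h one_pos hinvm hinv (w := z) (cplx_ne hP) (by
    filter_upwards [hP'] with s hs
    rw [hexp1]
    exact hs)
  obtain ⟨N₂, A₂, hN₂, hA₂, hy₂⟩ := pz U h one_pos hinvm hinv (w := fun s => exp (exp s))
    (cplx_ne hQ) (by
    filter_upwards [hQ'] with s hs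
    rw [hexp1]
    exact hs)
  rw [one_mul] at hz₁ hy₂
  have ha₁c : ∀ v : ℂ, ∀ᶠ t in 𝓝[≠] (0 : ℂ), a₁ t ≠ v := by
    intro v
    by_contra hcon
    have h1 : ∃ᶠ t in 𝓝[≠] (0 : ℂ), a₁ t - v = 0 := by
      rw [not_eventually] at hcon
      refine hcon.mono fun t ht => ?_
      rw [not_not] at ht
      rw [ht, sub_self]
    have h2 := mero_freq (ha₁.sub (MeromorphicAt.const v 0)) h1
    have hv : ∀ᶠ s in (U : Filter ℂ), z s = v := by
      filter_upwards [hz₁, (h.zero hN₁).eventually h2] with s b1 b2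
      rw [b1, sub_eq_zero.1 b2]
    have hvt : Transcendental ℤ v := by
      obtain ⟨s, a1, a2⟩ := (hv.and hzt).exists
      rw [← a1]
      exact a2
    have hfin := fin_x hP hvt
    obtain ⟨B', hB'⟩ := hfin.isBounded.exists_norm_le
    obtain ⟨s, a1, a2, a3⟩ := (hv.and (hP'.and ((exp_norm_tend h).eventually_gt_atTop B'))).exists
    have := hB' (exp s) (by
      show evZ P (exp s) v = 0
      rw [← a1]
      exact a2)
    linarith
  obtain ⟨N₃, D₃, hN₃, hD₃, hw₃⟩ := pz U h hN₁ ha₁ ha₁c (w := fun s => exp (z s))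
    (cplx_ne hR) (by
    filter_upwards [hR', hz₁] with s hs hs1
    rw [← hs1]
    exact hs)
  -- the common parameter
  obtain ⟨e, he_def⟩ : ∃ e, e = N₁ * N₃ * N₂ := ⟨_, rfl⟩
  have he : 0 < e := by rw [he_def]; positivity
  have ht1 : ∀ s, (tt e s) ^ (N₃ * N₂) = tt N₁ s := fun s => by
    rw [he_def, mul_assoc, tt_mul_pow (by positivity)]
  have ht2 : ∀ s, (tt e s) ^ (N₁ * N₃) = tt N₂ s := fun s => by
    rw [he_def, mul_comm (N₁ * N₃), tt_mul_pow (by positivity)]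
  have ht3 : ∀ s, (tt e s) ^ N₂ = tt (N₁ * N₃) s := fun s => by
    rw [he_def, tt_mul_pow hN₂]
  have ha := mero_pow ha₁ (show 0 < N₃ * N₂ by positivity)
  have hA := mero_pow hA₂ (show 0 < N₁ * N₃ by positivity)
  have hD := mero_pow hD₃ hN₂
  set a : ℂ → ℂ := fun t => a₁ (t ^ (N₃ * N₂)) with ha_def
  set A : ℂ → ℂ := fun t => A₂ (t ^ (N₁ * N₃)) with hA_def
  set D : ℂ → ℂ := fun t => D₃ (t ^ N₂) with hD_def
  have hza : ∀ᶠ s in (U : Filter ℂ), z s = a (tt e s) := by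
    filter_upwards [hz₁] with s hs
    rw [hs, ha_def]
    simp only
    rw [ht1]
  have hyA : ∀ᶠ s in (U : Filter ℂ), exp (exp s) = A (tt e s) := by
    filter_upwards [hy₂] with s hs
    rw [hs, hA_def]
    simp only
    rw [ht2]
  have hzD : ∀ᶠ s in (U : Filter ℂ), exp (z s) = D (tt e s) := by
    filter_upwards [hw₃] with s hs
    rw [hs, hD_def]
    simp only
    rw [ht3]
  have hex : ∀ s, exp s = ((tt e s) ^ e)⁻¹ := fun s => exp_inv_pow he s
  have hac : ∀ v : ℂ, ∀ᶠ t in 𝓝[≠] (0 : ℂ), a t ≠ v := by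
    intro v
    have h1 : Tendsto (fun t : ℂ => t ^ (N₃ * N₂)) (𝓝[≠] 0) (𝓝[≠] 0) := by
      refine tendsto_nhdsWithin_iff.2 ⟨?_, ?_⟩
      · have h2 : ContinuousAt (fun t : ℂ => t ^ (N₃ * N₂)) 0 := by fun_prop
        have h3 := h2.tendsto
        rw [zero_pow (by positivity)] at h3
        exact h3.mono_left nhdsWithin_le_nhds
      · filter_upwards [self_mem_nhdsWithin] with t ht
        exact pow_ne_zero _ ht
    exact h1.eventually (ha₁c v)
  -- representations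
  have hA0 : ∀ᶠ s in (U : Filter ℂ), A (tt e s) ≠ 0 := by
    filter_upwards [hyA] with s b1
    rw [← b1]
    exact exp_ne_zero _
  have hD0 : ∀ᶠ s in (U : Filter ℂ), D (tt e s) ≠ 0 := by
    filter_upwards [hzD] with s b1
    rw [← b1]
    exact exp_ne_zero _
  obtain ⟨n₂, g₂, hg₂, hg₂0, hA2⟩ := mero_rep h he hA hA0
  obtain ⟨n₃, g₃, hg₃, hg₃0, hD3⟩ := mero_rep h he hD hD0
  have hre : ∀ᶠ s in (U : Filter ℂ), (exp s).re = Real.log ‖A (tt e s)‖ := by
    filter_upwards [hyA] with s b1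
    rw [← b1, norm_exp, Real.log_exp]
  by_cases hn₂ : n₂ = 0
  · -- bounded
    have h1 : Tendsto (fun s => Real.log ‖g₂ (tt e s)‖) (U : Filter ℂ)
        (𝓝 (Real.log ‖g₂ 0‖)) :=
      ((h.lim he hg₂).norm).log (norm_pos_iff.2 hg₂0).ne'
    refine ⟨|Real.log ‖g₂ 0‖| + 1, ?_⟩
    filter_upwards [hre, (h.zero he).eventually hA2,
      h1.abs.eventually_lt_const (lt_add_one _)] with s b1 b2 b3
    rw [b1, b2, hn₂, zpow_zero, one_mul]
    exact b3.le
  -- the combination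
  have hxm : MeromorphicAt (fun t : ℂ => (t ^ e)⁻¹) 0 :=
    (analyticAt_id.pow e).meromorphicAt.inv
  obtain ⟨α, hα⟩ : ∃ α : ℂ → ℂ, α = fun t => n₂ * a t - n₃ * (t ^ e)⁻¹ := ⟨_, rfl⟩
  have hαm : MeromorphicAt α 0 := by
    rw [hα]
    exact ((MeromorphicAt.const _ _).mul ha).sub ((MeromorphicAt.const _ _).mul hxm)
  have hαs : ∀ᶠ s in (U : Filter ℂ), α (tt e s) = n₂ * z s - n₃ * exp s := by
    filter_upwards [hza] with s b1
    rw [hα, b1, hex s]
  have hα0 : ∀ᶠ s in (U : Filter ℂ), α (tt e s) ≠ 0 := by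
    filter_upwards [hαs, hind] with s b1 b2 b3
    rw [b1] at b3
    exact hn₂ (b2 n₂ n₃ b3)
  obtain ⟨n, g, hg, hg0, hag⟩ := mero_rep h he hαm hα0
  obtain ⟨β, hβ⟩ : ∃ β : ℂ → ℂ, β = fun t => g₃ t ^ n₂ * g₂ t ^ (-n₃) := ⟨_, rfl⟩
  have hβa : AnalyticAt ℂ β 0 := by
    rw [hβ]
    exact (hg₃.fun_zpow hg₃0).mul (hg₂.fun_zpow hg₂0)
  have hβ0 : β 0 ≠ 0 := by
    rw [hβ]
    exact mul_ne_zero (zpow_ne_zero _ hg₃0) (zpow_ne_zero _ hg₂0)
  have hβt : ∀ᶠ t in 𝓝[≠] (0 : ℂ), β t = D t ^ n₂ * A t ^ (-n₃) := by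
    filter_upwards [hA2, hD3, self_mem_nhdsWithin,
      nhdsWithin_le_nhds (hg₂.continuousAt.eventually_ne hg₂0)] with t b1 b2 b3 b4
    have b3' : t ≠ 0 := b3
    rw [b1, b2, hβ]
    simp only
    rw [mul_zpow, mul_zpow, ← zpow_mul, ← zpow_mul]
    have h1 : t ^ (n₃ * n₂) * t ^ (n₂ * (-n₃)) = 1 := by
      rw [← zpow_add₀ b3']
      have : n₃ * n₂ + n₂ * -n₃ = 0 := by ring
      rw [this, zpow_zero]
    linear_combination (-(g₃ t ^ n₂ * g₂ t ^ (-n₃))) * h1
  have hβs : ∀ᶠ s in (U : Filter ℂ), exp (α (tt e s)) = β (tt e s) := by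
    filter_upwards [hαs, (h.zero he).eventually hβt, hyA, hzD] with s b1 b2 b3 b4
    rw [b1, b2, ← b3, ← b4, exp_sub, ← exp_int_mul, ← exp_int_mul, Int.cast_neg, neg_mul, exp_neg,
      div_eq_mul_inv]
  rcases lt_or_ge n 0 with hn | hn
  · -- a pole
    obtain ⟨p, hpn⟩ : ∃ p : ℕ, n = -(p : ℤ) := ⟨n.natAbs, by omega⟩
    have hp : 0 < p := by omega
    obtain ⟨C, -, hC⟩ := mero_log_bd h he hA hA0
    obtain ⟨B, hB⟩ := lemA U h he hp hg hg0 hβa hβ0 (by
      filter_upwards [hβs, (h.zero he).eventually hag] with s b1 b2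
      rw [← b1, b2, hpn, zpow_neg, zpow_natCast]) hxm (C := C) (by
      filter_upwards [hC, hre] with s b1 b2
      rw [← hex s, b2]
      exact b1)
    refine ⟨B, ?_⟩
    filter_upwards [hB] with s b1
    rw [hex s]
    exact b1
  · exfalso
    obtain ⟨m, hm⟩ := Int.eq_ofNat_of_zero_le hn
    have h1 : AnalyticAt ℂ (fun t : ℂ => exp (t ^ m * g t) - β t) 0 :=
      (((analyticAt_id.pow m).mul hg).cexp).sub hβa
    have h2 : ∀ᶠ t in 𝓝[≠] (0 : ℂ), exp (t ^ m * g t) - β t = 0 := by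
      refine mero_freq h1.meromorphicAt ?_
      refine (h.zero he).frequently (Eventually.frequently ?_)
      filter_upwards [hβs, (h.zero he).eventually hag] with s b1 b2
      rw [← b1, b2, hm, zpow_natCast, sub_self]
    refine lemB he hP hQ hR (A := A) (D := D) hac ?_ ?_ ?_ (M := n₂) (L := n₃) (α := α) ?_ ?_ ?_
    · refine mero_freq (mero_evZ P hxm ha) ((h.zero he).frequently (Eventually.frequently ?_))
      filter_upwards [hP', hza] with s b1 b2
      rw [← hex s, ← b2]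
      exact b1
    · refine mero_freq (mero_evZ Q hxm hA) ((h.zero he).frequently (Eventually.frequently ?_))
      filter_upwards [hQ', hyA] with s b1 b2
      rw [← hex s, ← b2]
      exact b1
    · refine mero_freq (mero_evZ R ha hD) ((h.zero he).frequently (Eventually.frequently ?_))
      filter_upwards [hR', hza, hzD] with s b1 b2 b3
      rw [← b2, ← b3]
      exact b1
    · exact Eventually.of_forall fun t => by rw [hα]
    · filter_upwards [hag, self_mem_nhdsWithin,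
        nhdsWithin_le_nhds (hg.continuousAt.eventually_ne hg0)] with t b1 b2 b3
      rw [b1]
      exact mul_ne_zero (zpow_ne_zero _ b2) b3
    · filter_upwards [h2, hag, hβt] with t b1 b2 b3
      rw [b2, hm, zpow_natCast, sub_eq_zero.1 b1, b3]

end Pool.Agent.H489.EX
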