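import Pool.Agent.H489.EX.C

/-!
Counterexamples to Schanuel's conjecture on curves: the real parts are bounded.
-/

open Complex Filter Topology Polynomial
open scoped Polynomial.Bivariate

namespace Pool.Agent.H489.EX

open Pool.Agent.H489.CU

/-- the pairs of transcendental points -/
theorem trans_bound {P Q R : ℤ[X][Y]} (hP : P ≠ 0) (hQ : Q ≠ 0) (hR : R ≠ 0) :
    ∃ K : ℝ, ∀ x y : ℂ, evZ P x y = 0 → evZ Q x (exp x) = 0 → evZ R y (exp y) = 0 →
      Transcendental ℤ x → Transcendental ℤ y →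
      (∀ M L : ℤ, (M : ℂ) * y - L * x = 0 → M = 0) → |x.re| ≤ K := by
  by_contra hcon
  push Not at hcon
  choose cx cy c1 c2 c3 c4 c5 c6 c7 using fun n : ℕ => hcon n
  set S := Set.range cx with hS
  have hex : ∀ x : ℂ, ∃ w : ℂ, x ∈ S → (evZ P x w = 0 ∧ evZ Q x (exp x) = 0 ∧
      evZ R w (exp w) = 0 ∧ Transcendental ℤ w ∧
      (∀ M L : ℤ, (M : ℂ) * w - L * x = 0 → M = 0)) := by
    intro x
    by_cases hx : x ∈ S
    · obtain ⟨n, rfl⟩ := hx
      exact ⟨cy n, fun _ => ⟨c1 n, c2 n, c3 n, c5 n, c6 n⟩⟩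
    · exact ⟨0, fun h => absurd h hx⟩
  choose ζ hζ using hex
  set V : Ultrafilter ℂ := (Ultrafilter.of (atTop : Filter ℕ)).map cx with hV
  have hVe : ∀ p : ℂ → Prop, (∀ᶠ n in (atTop : Filter ℕ), p (cx n)) →
      ∀ᶠ x in (V : Filter ℂ), p x := by
    intro p hp
    rw [hV, Ultrafilter.coe_map, eventually_map]
    exact (Ultrafilter.of_le (atTop : Filter ℕ)) hp
  have hVS : ∀ᶠ y in (V : Filter ℂ), y ∈ S := hVe _ (Eventually.of_forall fun n => ⟨n, rfl⟩)
  have hVre : ∀ B : ℝ, ∀ᶠ y in (V : Filter ℂ), B < |y.re| := by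
    intro B
    apply hVe
    filter_upwards [eventually_ge_atTop ⌈B⌉₊] with n hn
    have h1 : B ≤ n := (Nat.le_ceil B).trans (by exact_mod_cast hn)
    exact h1.trans_lt (c7 n)
  have hVbig : ∀ B : ℝ, ∀ᶠ y in (V : Filter ℂ), B < ‖y‖ := fun B =>
    (hVre B).mono fun y hy => hy.trans_le (abs_re_le_norm y)
  have hVtop : Tendsto (fun y : ℂ => ‖y‖) (V : Filter ℂ) atTop := by
    rw [tendsto_atTop]
    intro B
    exact (hVbig B).mono fun y hy => hy.le
  set U : Ultrafilter ℂ := V.map log with hU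
  have hUe : ∀ p : ℂ → Prop, (∀ᶠ s in (U : Filter ℂ), p s) ↔ ∀ᶠ y in (V : Filter ℂ), p (log y) := by
    intro p
    rw [hU, Ultrafilter.coe_map, eventually_map]
  have hstr : Str (U : Filter ℂ) := by
    refine ⟨inferInstance, ?_, ?_⟩
    · rw [hU, Ultrafilter.coe_map, tendsto_map'_iff]
      exact (Real.tendsto_log_atTop.comp hVtop).congr fun y => (log_re y).symm
    · rw [hUe]
      refine Eventually.of_forall fun y => ?_
      rw [log_im]
      exact abs_arg_le_pi y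
  have hV0 : ∀ᶠ y in (V : Filter ℂ), exp (log y) = y ∧ y ∈ S := by
    filter_upwards [hVbig 0, hVS] with y a1 a2
    exact ⟨exp_log (norm_pos_iff.1 a1), a2⟩
  obtain ⟨B, hB⟩ := mainE U hstr hP hQ hR (z := fun s => ζ (exp s)) (by
    rw [hUe]
    filter_upwards [hV0] with y ⟨a1, a2⟩
    rw [a1]
    exact (hζ y a2).1) (by
    rw [hUe]
    filter_upwards [hV0] with y ⟨a1, a2⟩
    rw [a1]
    exact (hζ y a2).2.1) (by
    rw [hUe]
    filter_upwards [hV0] with y ⟨a1, a2⟩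
    rw [a1]
    exact (hζ y a2).2.2.1) (by
    rw [hUe]
    filter_upwards [hV0] with y ⟨a1, a2⟩
    rw [a1]
    exact (hζ y a2).2.2.2.1) (by
    rw [hUe]
    filter_upwards [hV0] with y ⟨a1, a2⟩
    rw [a1]
    exact (hζ y a2).2.2.2.2)
  rw [hUe] at hB
  obtain ⟨y, a1, a2, a3⟩ := (hB.and (hV0.and (hVre B))).exists
  rw [a2.1] at a1
  linarith

/-- the pairs of points -/
theorem pair_bound {P Q R B : ℤ[X][Y]} (hP : P ≠ 0) (hQ : Q ≠ 0) (hR : R ≠ 0) (hB : B ≠ 0) :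
    ∃ K : ℝ, ∀ x y : ℂ, evZ P x y = 0 → evZ Q x (exp x) = 0 → evZ R y (exp y) = 0 →
      evZ B x (exp y) = 0 → x ≠ 0 → y ≠ 0 →
      (∀ M L : ℤ, (M : ℂ) * y - L * x = 0 → M = 0) → |x.re| ≤ K := by
  obtain ⟨K₁, hK₁⟩ := trans_bound hP hQ hR
  obtain ⟨K₂, hK₂⟩ := (roots_fin hQ).isBounded.exists_norm_le
  have h3 : (⋃ w ∈ {w : ℂ | aeval w R.leadingCoeff = 0} ∩ {w | Transcendental ℤ (exp w)},
      {y : ℂ | evZ B y (exp w) = 0}).Finite :=
    ((roots_fin hR).subset Set.inter_subset_left).biUnion fun w hw => fin_x hB hw.2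
  obtain ⟨K₃, hK₃⟩ := h3.isBounded.exists_norm_le
  refine ⟨max K₁ (max K₂ K₃), fun x y e1 e2 e3 e5 hx0 hy0 hind => ?_⟩
  by_cases hx : IsAlgebraic ℤ x
  · have hG : Transcendental ℤ (exp x) := fun h => hx0 (hl hx h)
    have h1 := hK₂ x (coord_alg hx hG e2)
    exact ((abs_re_le_norm x).trans h1).trans ((le_max_left _ _).trans (le_max_right _ _))
  · by_cases hy : IsAlgebraic ℤ y
    · have hG : Transcendental ℤ (exp y) := fun h => hy0 (hl hy h)
      have h1 := hK₃ x (by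
        simp only [Set.mem_iUnion]
        exact ⟨y, ⟨coord_alg hy hG e3, hG⟩, e5⟩)
      exact ((abs_re_le_norm x).trans h1).trans ((le_max_right _ _).trans (le_max_right _ _))
    · exact (hK₁ x y e1 e2 e3 hx hy hind).trans (le_max_left _ _)

/-- tuples -/
theorem tuple_bound {ι : Type*} [Finite ι] [Nontrivial ι] (W : Set (ι ⊕ ι → ℂ))
    (hW : ∀ a b : ι ⊕ ι, a ≠ b → ∃ P : MvPolynomial (Fin 2) ℤ, P ≠ 0 ∧
      ∀ x ∈ W, MvPolynomial.aeval ![x a, x b] P = 0) :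
    ∃ K : ℝ, ∀ z : ι → ℂ, LinearIndependent ℚ z → Sum.elim z (fun i => exp (z i)) ∈ W →
      ∀ i, |(z i).re| ≤ K := by
  classical
  choose P₀ hP₀ hPW₀ using hW
  have hconv : ∀ (a b : ι ⊕ ι), ∃ P' : ℤ[X][Y], P' ≠ 0 ∧ (a ≠ b → ∀ x ∈ W,
      evZ P' (x a) (x b) = 0) := by
    intro a b
    by_cases hab : a = b
    · exact ⟨1, one_ne_zero, fun h => absurd hab h⟩
    · obtain ⟨P', h1, h2⟩ := mv_conv (hP₀ a b hab)
      refine ⟨P', h1, fun _ x hx => ?_⟩
      rw [← h2]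
      exact hPW₀ a b hab x hx
  choose P hP hPW using hconv
  have hone : ∀ i : ι, ∃ K : ℝ, ∀ z : ι → ℂ, LinearIndependent ℚ z →
      Sum.elim z (fun i => exp (z i)) ∈ W → |(z i).re| ≤ K := by
    intro i
    obtain ⟨j, hj⟩ := exists_ne i
    obtain ⟨K, hK⟩ := pair_bound (hP (Sum.inl i) (Sum.inl j)) (hP (Sum.inl i) (Sum.inr i))
      (hP (Sum.inl j) (Sum.inr j)) (hP (Sum.inl i) (Sum.inr j))
    refine ⟨K, fun z hz hzW => ?_⟩
    have hrel : ∀ a b : ι ⊕ ι, a ≠ b → evZ (P a b) (Sum.elim z (fun i => exp (z i)) a)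
        (Sum.elim z (fun i => exp (z i)) b) = 0 := fun a b hab => hPW a b hab _ hzW
    refine hK (z i) (z j) (hrel (Sum.inl i) (Sum.inl j) (fun h => hj (Sum.inl_injective h).symm))
      (hrel (Sum.inl i) (Sum.inr i) Sum.inl_ne_inr) (hrel (Sum.inl j) (Sum.inr j) Sum.inl_ne_inr)
      (hrel (Sum.inl i) (Sum.inr j) Sum.inl_ne_inr) (hz.ne_zero i) (hz.ne_zero j)
      (fun M L hML => ?_)
    have hinj : Function.Injective ![j, i] := by
      intro a b hab
      fin_cases a <;> fin_cases b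
      · rfl
      · exact absurd hab hj
      · exact absurd hab.symm hj
      · rfl
    have h1 := hz.comp ![j, i] hinj
    have h2 : z ∘ ![j, i] = ![z j, z i] := by
      funext a
      fin_cases a <;> rfl
    rw [h2, LinearIndependent.pair_iff] at h1
    have h3 := (h1 (M : ℚ) (-(L : ℚ)) (by
      rw [Rat.smul_def, Rat.smul_def]
      push_cast
      linear_combination hML)).1
    exact_mod_cast h3
  choose K hK using hone
  obtain ⟨M, hM⟩ := (Set.finite_range K).bddAbove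
  exact ⟨M, fun z hz hzW i => (hK i z hz hzW).trans (hM ⟨i, rfl⟩)⟩

end Pool.Agent.H489.EX
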