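import Pool.Agent.H489.EX.D

/-!
Finiteness in bounded regions, iterated exponentials.
-/

open Complex Filter Topology Polynomial
open scoped Polynomial.Bivariate

namespace Pool.Agent.H489.EX

open Pool.Agent.H489.CU

lemma evZ_exp_differentiable (Q : ℤ[X][Y]) : Differentiable ℂ (fun y => evZ Q y (exp y)) := by
  have h0 : (fun y => evZ Q y (exp y)) = fun y => ∑ j ∈ Finset.range (Q.natDegree + 1),
      aeval y (Q.coeff j) * (exp y) ^ j := by
    funext y
    rw [evZ_eq_sum]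
  rw [h0]
  apply Differentiable.fun_sum
  intro j _
  refine Differentiable.mul ?_ (Differentiable.pow Complex.differentiable_exp _)
  have h1 : (fun y : ℂ => aeval y (Q.coeff j)) = fun y => ((Q.coeff j).map (algebraMap ℤ ℂ)).eval y := by
    funext y
    rw [aeval_def, eval₂_eq_eval_map]
  rw [h1]
  exact Polynomial.differentiable _

lemma transc_exp_one : Transcendental ℤ (exp 1) := fun h => one_ne_zero (hl isAlgebraic_one h)

/-- finitely many zeros in bounded regions -/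
lemma zexp_finite {Q : ℤ[X][Y]} (hQ : Q ≠ 0) (B : ℝ) :
    {y : ℂ | evZ Q y (exp y) = 0 ∧ ‖y‖ ≤ B}.Finite := by
  by_contra hinf
  have hinf' : {y : ℂ | evZ Q y (exp y) = 0 ∧ ‖y‖ ≤ B}.Infinite := hinf
  have hcomp : IsCompact (Metric.closedBall (0 : ℂ) B) := isCompact_closedBall _ _
  obtain ⟨x, -, hx⟩ := hinf'.exists_accPt_of_subset_isCompact hcomp (fun y hy => by
    rw [mem_closedBall_zero_iff]
    exact hy.2)
  have hfreq : ∃ᶠ y in 𝓝[≠] x, evZ Q y (exp y) = 0 := by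
    rw [accPt_iff_frequently_nhdsNE] at hx
    exact hx.mono fun y hy => hy.1
  have han : AnalyticOnNhd ℂ (fun y => evZ Q y (exp y)) Set.univ :=
    fun y _ => (evZ_exp_differentiable Q).analyticAt y
  have hzero := han.eqOn_zero_of_preconnected_of_frequently_eq_zero isPreconnected_univ
    (Set.mem_univ x) hfreq
  have h1 : Set.Infinite (Set.range fun k : ℕ => (1 : ℂ) + k * (2 * Real.pi * I)) := by
    apply Set.infinite_range_of_injective
    intro a b hab
    simp only [add_right_inj] at hab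
    have h2 := mul_right_cancel₀ two_pi_I_ne_zero hab
    exact_mod_cast h2
  apply h1
  refine (fin_x hQ transc_exp_one).subset ?_
  rintro _ ⟨k, rfl⟩
  have h2 := hzero (Set.mem_univ ((1 : ℂ) + k * (2 * Real.pi * I)))
  simp only [Pi.zero_apply] at h2
  have h3 : exp ((1 : ℂ) + k * (2 * Real.pi * I)) = exp 1 := by
    rw [exp_add]
    have : exp ((k : ℂ) * (2 * Real.pi * I)) = 1 := by
      rw [exp_eq_one_iff]
      exact ⟨k, by push_cast; rfl⟩
    rw [this, mul_one]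
  rw [h3] at h2
  exact h2

/-- iterated exponentials -/
theorem iter_finite (W : Set (Fin 3 → ℂ))
    (hW : ∀ a b : Fin 3, a ≠ b → ∃ P : MvPolynomial (Fin 2) ℤ, P ≠ 0 ∧
      ∀ x ∈ W, MvPolynomial.aeval ![x a, x b] P = 0) :
    {z : ℂ | LinearIndependent ℚ ![z, exp z] ∧ ![z, exp z, exp (exp z)] ∈ W}.Finite := by
  obtain ⟨P₀, hP₀, hP₀W⟩ := hW 0 1 (by decide)
  obtain ⟨R₀, hR₀, hR₀W⟩ := hW 1 2 (by decide)
  obtain ⟨B₀, hB₀, hB₀W⟩ := hW 0 2 (by decide)
  obtain ⟨P, hP, hPe⟩ := mv_conv hP₀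
  obtain ⟨R, hR, hRe⟩ := mv_conv hR₀
  obtain ⟨B, hB, hBe⟩ := mv_conv hB₀
  obtain ⟨K, hK⟩ := pair_bound hP hP hR hB
  have h1 : {w : ℂ | evZ R w (exp w) = 0 ∧ ‖w‖ ≤ Real.exp K}.Finite := zexp_finite hR _
  have h2 : ∀ w ∈ {w : ℂ | evZ R w (exp w) = 0 ∧ ‖w‖ ≤ Real.exp K},
      {z : ℂ | exp z = w ∧ z ≠ 0 ∧ evZ P z w = 0 ∧ evZ B z (exp w) = 0}.Finite := by
    intro w _
    by_cases hw : IsAlgebraic ℤ w
    · by_cases hw0 : w = 0
      · refine Set.finite_empty.subset fun z hz => ?_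
        exact absurd (hz.1.trans hw0) (exp_ne_zero z)
      · exact (fin_x hB (fun h => hw0 (hl hw h))).subset fun z hz => hz.2.2.2
    · exact (fin_x hP hw).subset fun z hz => hz.2.2.1
  refine (h1.biUnion h2).subset ?_
  rintro z ⟨hz, hzW⟩
  obtain ⟨x, hx⟩ : ∃ x : Fin 3 → ℂ, x = ![z, exp z, exp (exp z)] := ⟨_, rfl⟩
  have hx0 : x 0 = z := by rw [hx]; rfl
  have hx1 : x 1 = exp z := by rw [hx]; rfl
  have hx2 : x 2 = exp (exp z) := by rw [hx]; rfl
  rw [← hx] at hzW
  have e1 : evZ P z (exp z) = 0 := by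
    have h3 := hP₀W x hzW
    rw [hPe, hx0, hx1] at h3
    exact h3
  have e2 : evZ R (exp z) (exp (exp z)) = 0 := by
    have h3 := hR₀W x hzW
    rw [hRe, hx1, hx2] at h3
    exact h3
  have e3 : evZ B z (exp (exp z)) = 0 := by
    have h3 := hB₀W x hzW
    rw [hBe, hx0, hx2] at h3
    exact h3
  have hz0 : z ≠ 0 := by
    have := hz.ne_zero 0
    simpa using this
  have hre := hK z (exp z) e1 e1 e2 e3 hz0 (exp_ne_zero z) (by
    intro M L hML
    rw [LinearIndependent.pair_iff] at hz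
    have h3 := (hz (-(L : ℚ)) (M : ℚ) (by
      rw [Rat.smul_def, Rat.smul_def]
      push_cast
      linear_combination hML)).2
    exact_mod_cast h3)
  simp only [Set.mem_iUnion]
  refine ⟨exp z, ⟨e2, ?_⟩, rfl, hz0, e1, e3⟩
  rw [norm_exp]
  exact Real.exp_le_exp.2 ((le_abs_self _).trans hre)

end Pool.Agent.H489.EX
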