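import Pool.Agent.H489.EX.E

/-!
Analytic functions with algebraic Taylor coefficients.
-/

open Complex Filter Topology ComplexConjugate

namespace Pool.Agent.H489.EX

open Pool.Agent.H489.CU

/-- analytic at `0`, and the first `n + 1` Taylor coefficients are algebraic numbers -/
def AK : ℕ → (ℂ → ℂ) → Prop
  | 0, f => AnalyticAt ℂ f 0 ∧ IsAlgebraic ℚ (f 0)
  | n + 1, f => AnalyticAt ℂ f 0 ∧ IsAlgebraic ℚ (f 0) ∧
      ∃ g : ℂ → ℂ, (∀ᶠ t in 𝓝 (0 : ℂ), f t = f 0 + t * g t) ∧ AK n g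

/-- all Taylor coefficients are algebraic -/
def AI (f : ℂ → ℂ) : Prop := ∀ n, AK n f

variable {n : ℕ} {f g : ℂ → ℂ}

lemma AK.an (h : AK n f) : AnalyticAt ℂ f 0 := by
  cases n <;> exact h.1

lemma AK.alg (h : AK n f) : IsAlgebraic ℚ (f 0) := by
  cases n with
  | zero => exact h.2
  | succ n => exact h.2.1

lemma AK.congr (h : AK n f) (e : ∀ᶠ t in 𝓝 (0 : ℂ), f t = g t) : AK n g := by
  have h0 := e.self_of_nhds
  cases n with
  | zero => exact ⟨h.1.congr e, by rw [← h0]; exact h.2⟩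
  | succ n =>
    obtain ⟨h1, h2, k, h3, h4⟩ := h
    refine ⟨h1.congr e, by rw [← h0]; exact h2, k, ?_, h4⟩
    filter_upwards [h3, e] with t a1 a2
    rw [← a2, ← h0, a1]

lemma AK.mono : ∀ {n : ℕ} {f : ℂ → ℂ}, AK (n + 1) f → AK n f := by
  intro n
  induction n with
  | zero => exact fun h => ⟨h.1, h.2.1⟩
  | succ n ih =>
    intro f h
    obtain ⟨h1, h2, k, h3, h4⟩ := h
    exact ⟨h1, h2, k, h3, ih h4⟩

lemma AK.const {c : ℂ} (hc : IsAlgebraic ℚ c) : ∀ n, AK n (fun _ => c) := by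
  intro n
  induction n generalizing c with
  | zero => exact ⟨analyticAt_const, hc⟩
  | succ n ih =>
    exact ⟨analyticAt_const, hc, fun _ => 0, Eventually.of_forall fun t => by simp,
      ih isAlgebraic_zero⟩

lemma AK.tmul (h : AK n g) : AK (n + 1) (fun t => t * g t) :=
  ⟨analyticAt_id.mul h.an, by simpa using isAlgebraic_zero, g,
    Eventually.of_forall fun t => by simp, h⟩

lemma AK.add : ∀ {n : ℕ} {f g : ℂ → ℂ}, AK n f → AK n g → AK n (fun t => f t + g t) := by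
  intro n
  induction n with
  | zero => exact fun h k => ⟨h.1.add k.1, h.2.add k.2⟩
  | succ n ih =>
    intro f g h k
    obtain ⟨h1, h2, f₁, h3, h4⟩ := h
    obtain ⟨k1, k2, g₁, k3, k4⟩ := k
    refine ⟨h1.add k1, h2.add k2, _, ?_, ih h4 k4⟩
    filter_upwards [h3, k3] with t a1 a2
    rw [a1, a2]
    ring

lemma AK.mul : ∀ {n : ℕ} {f g : ℂ → ℂ}, AK n f → AK n g → AK n (fun t => f t * g t) := by
  intro n
  induction n with
  | zero => exact fun h k => ⟨h.1.mul k.1, h.2.mul k.2⟩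
  | succ n ih =>
    intro f g h k
    have hk := k.mono
    obtain ⟨h1, h2, f₁, h3, h4⟩ := h
    obtain ⟨k1, k2, g₁, k3, k4⟩ := k
    refine ⟨h1.mul k1, h2.mul k2, _, ?_, (ih (AK.const h2 n) k4).add (ih h4 hk)⟩
    filter_upwards [h3, k3] with t a1 a2
    rw [a1, a2]
    ring

lemma AK.inv : ∀ {n : ℕ} {f : ℂ → ℂ}, AK n f → f 0 ≠ 0 → AK n (fun t => (f t)⁻¹) := by
  intro n
  induction n with
  | zero => exact fun h h0 => ⟨h.1.inv h0, h.2.inv⟩
  | succ n ih =>
    intro f h h0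
    have hi := ih h.mono h0
    obtain ⟨h1, h2, f₁, h3, h4⟩ := h
    refine ⟨h1.inv h0, h2.inv, _, ?_, ((AK.const h2.inv.neg n).mul h4).mul hi⟩
    filter_upwards [h3, h1.continuousAt.eventually_ne h0] with t a1 a2
    have a3 : f 0 + t * f₁ t ≠ 0 := by rwa [← a1]
    rw [a1]
    field_simp
    ring

/-- the difference quotient -/
lemma split_an (hf : AnalyticAt ℂ f 0) : ∃ g : ℂ → ℂ, AnalyticAt ℂ g 0 ∧
    ∀ᶠ t in 𝓝 (0 : ℂ), f t = f 0 + t * g t := by
  have h1 : AnalyticAt ℂ (fun t => f t - f 0) 0 := hf.sub analyticAt_const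
  obtain ⟨h2, h3⟩ := div_var h1 (sub_self _)
  refine ⟨_, h2, Eventually.of_forall fun t => ?_⟩
  rw [← h3]
  ring

lemma eq_of_mul {u v : ℂ → ℂ} (hu : AnalyticAt ℂ u 0) (hv : AnalyticAt ℂ v 0)
    (h : ∀ᶠ t in 𝓝 (0 : ℂ), t * u t = t * v t) : ∀ᶠ t in 𝓝 (0 : ℂ), u t = v t := by
  rw [← hu.frequently_eq_iff_eventually_eq hv]
  apply Eventually.frequently
  filter_upwards [nhdsWithin_le_nhds h, self_mem_nhdsWithin] with t a1 a2
  exact mul_left_cancel₀ a2 a1

lemma AK.deriv : ∀ {n : ℕ} {f : ℂ → ℂ}, AK (n + 1) f → AK n (deriv f) := by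
  have key : ∀ {f g : ℂ → ℂ}, AnalyticAt ℂ g 0 → (∀ᶠ t in 𝓝 (0 : ℂ), f t = f 0 + t * g t) →
      ∀ᶠ t in 𝓝 (0 : ℂ), g t + t * _root_.deriv g t = _root_.deriv f t := by
    intro f g hg h
    have h1 : f =ᶠ[𝓝 0] fun t => f 0 + t * g t := h
    filter_upwards [h1.deriv, hg.eventually_analyticAt] with t a1 a2
    have h2 : HasDerivAt (fun t => f 0 + t * g t) (1 * g t + t * _root_.deriv g t) t :=
      ((hasDerivAt_id t).mul a2.differentiableAt.hasDerivAt).const_add (f 0)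
    rw [a1, h2.deriv, one_mul]
  intro n
  induction n with
  | zero =>
    intro f h
    obtain ⟨h1, h2, g, h3, h4⟩ := h
    have h5 : AK 0 (fun t => g t + t * _root_.deriv g t) :=
      AK.add h4 ⟨analyticAt_id.mul h4.an.deriv, by simpa using isAlgebraic_zero⟩
    exact h5.congr (key h4.an h3)
  | succ n ih =>
    intro f h
    obtain ⟨h1, h2, g, h3, h4⟩ := h
    exact (h4.add (ih h4).tmul).congr (key h4.an h3)

lemma AK.anti : ∀ {n : ℕ} {c : ℕ} {g u : ℂ → ℂ}, 0 < c → AnalyticAt ℂ u 0 →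
    (∀ᶠ t in 𝓝 (0 : ℂ), g t = c * u t + t * _root_.deriv u t) → AK n g → AK n u := by
  have halg : ∀ {c : ℕ} {g u : ℂ → ℂ}, 0 < c →
      (∀ᶠ t in 𝓝 (0 : ℂ), g t = c * u t + t * _root_.deriv u t) → IsAlgebraic ℚ (g 0) →
      IsAlgebraic ℚ (u 0) := by
    intro c g u hc h hg
    have h0 := h.self_of_nhds
    rw [zero_mul, add_zero] at h0
    have hc' : (c : ℂ) ≠ 0 := by exact_mod_cast hc.ne'
    have h1 : u 0 = (c : ℂ)⁻¹ * g 0 := by
      rw [h0]
      field_simp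
    rw [h1]
    exact (isAlgebraic_natCast (R := ℚ) c).inv.mul hg
  intro n
  induction n with
  | zero => exact fun hc hu h hg => ⟨hu, halg hc h hg.2⟩
  | succ n ih =>
    intro c g u hc hu h hg
    obtain ⟨g1, g2, g₁, g3, g4⟩ := hg
    obtain ⟨u₁, hu₁, hs⟩ := split_an hu
    refine ⟨hu, halg hc h g2, u₁, hs, ih (c := c + 1) (g := g₁) (by omega) hu₁ ?_ g4⟩
    refine eq_of_mul g4.an ((analyticAt_const.mul hu₁).add (analyticAt_id.mul hu₁.deriv)) ?_
    have h1 : u =ᶠ[𝓝 0] fun t => u 0 + t * u₁ t := hs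
    have h0 := h.self_of_nhds
    rw [zero_mul, add_zero] at h0
    filter_upwards [h, g3, hs, h1.deriv, hu₁.eventually_analyticAt] with t a1 a2 a3 a4 a5
    have h2 : HasDerivAt (fun t => u 0 + t * u₁ t) (1 * u₁ t + t * _root_.deriv u₁ t) t :=
      ((hasDerivAt_id t).mul a5.differentiableAt.hasDerivAt).const_add (u 0)
    rw [h2.deriv] at a4
    rw [a4, a3, a2, h0] at a1
    push_cast
    linear_combination a1

lemma AK.of_deriv (hf : AnalyticAt ℂ f 0) (h0 : IsAlgebraic ℚ (f 0)) (hd : AK n (_root_.deriv f)) :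
    AK (n + 1) f := by
  obtain ⟨g, hg, hs⟩ := split_an hf
  refine ⟨hf, h0, g, hs, AK.anti one_pos hg ?_ hd⟩
  have h1 : f =ᶠ[𝓝 0] fun t => f 0 + t * g t := hs
  filter_upwards [h1.deriv, hg.eventually_analyticAt] with t a1 a2
  have h2 : HasDerivAt (fun t => f 0 + t * g t) (1 * g t + t * _root_.deriv g t) t :=
    ((hasDerivAt_id t).mul a2.differentiableAt.hasDerivAt).const_add (f 0)
  rw [a1, h2.deriv, Nat.cast_one]

lemma alg_conj {x : ℂ} (hx : IsAlgebraic ℚ x) : IsAlgebraic ℚ (conj x) := by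
  have := hx.algHom ((Complex.conjAe.toAlgHom).restrictScalars ℚ)
  exact this

lemma AK.cc : ∀ {n : ℕ} {f : ℂ → ℂ}, AK n f → AK n (CU.cc f) := by
  intro n
  induction n with
  | zero => exact fun h => ⟨cc_an h.1, by rw [cc_zero]; exact alg_conj h.2⟩
  | succ n ih =>
    intro f h
    obtain ⟨h1, h2, g, h3, h4⟩ := h
    refine ⟨cc_an h1, by rw [cc_zero]; exact alg_conj h2, CU.cc g, ?_, ih h4⟩
    have h5 : Tendsto (fun t : ℂ => conj t) (𝓝 0) (𝓝 0) := by
      have := Complex.continuous_conj.tendsto (0 : ℂ)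
      rwa [map_zero] at this
    filter_upwards [h5.eventually h3] with t ht
    unfold CU.cc
    rw [ht, map_add, map_mul, Complex.conj_conj, map_zero]

lemma AK.scale {ω : ℂ} (hω : IsAlgebraic ℚ ω) : ∀ {n : ℕ} {f : ℂ → ℂ}, AK n f →
    AK n (fun z => f (z * ω)) := by
  have ha : ∀ {f : ℂ → ℂ}, AnalyticAt ℂ f 0 → AnalyticAt ℂ (fun z => f (z * ω)) 0 := by
    intro f hf
    have h1 : AnalyticAt ℂ (fun z : ℂ => z * ω) 0 := analyticAt_id.mul analyticAt_const
    apply AnalyticAt.fun_comp (g := f) (f := fun z : ℂ => z * ω) _ h1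
    simpa using hf
  intro n
  induction n with
  | zero => exact fun h => ⟨ha h.1, by simpa using h.2⟩
  | succ n ih =>
    intro f h
    obtain ⟨h1, h2, g, h3, h4⟩ := h
    refine ⟨ha h1, by simpa using h2, _, ?_, (AK.const hω n).mul (ih h4)⟩
    have h5 : Tendsto (fun t : ℂ => t * ω) (𝓝 0) (𝓝 0) := by
      have : ContinuousAt (fun t : ℂ => t * ω) 0 := by fun_prop
      simpa using this.tendsto
    filter_upwards [h5.eventually h3] with t ht
    rw [ht, zero_mul]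
    ring

lemma AI.an (h : AI f) : AnalyticAt ℂ f 0 := (h 0).an

lemma AI.split (h : AI f) : ∃ g, AI g ∧ ∀ᶠ t in 𝓝 (0 : ℂ), f t = f 0 + t * g t := by
  obtain ⟨-, -, g, h3, h4⟩ := h 1
  refine ⟨g, fun n => ?_, h3⟩
  obtain ⟨-, -, g', h3', h4'⟩ := h (n + 1)
  refine h4'.congr (eq_of_mul h4'.an h4.an ?_)
  filter_upwards [h3, h3'] with t a1 a2
  rw [a1] at a2
  linear_combination -a2

lemma AI.div_t (h : AI f) {u : ℂ → ℂ} (hu : AnalyticAt ℂ u 0)
    (hf : ∀ᶠ t in 𝓝 (0 : ℂ), f t = t * u t) : AI u := by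
  obtain ⟨g, hg, hs⟩ := h.split
  have h0 : f 0 = 0 := by
    rw [hf.self_of_nhds, zero_mul]
  intro n
  refine (hg n).congr (eq_of_mul hg.an hu ?_)
  filter_upwards [hf, hs] with t a1 a2
  rw [← a1, a2, h0, zero_add]

lemma AI.div_pow : ∀ {k : ℕ} {f u : ℂ → ℂ}, AI f → AnalyticAt ℂ u 0 →
    (∀ᶠ t in 𝓝 (0 : ℂ), f t = t ^ k * u t) → AI u := by
  intro k
  induction k with
  | zero =>
    intro f u h hu hf n
    refine (h n).congr ?_
    filter_upwards [hf] with t a1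
    rw [a1, pow_zero, one_mul]
  | succ k ih =>
    intro f u h hu hf
    refine ih (f := fun t => t ^ k * u t) (h.div_t ((analyticAt_id.pow k).mul hu) ?_) hu
      (Eventually.of_forall fun t => rfl)
    filter_upwards [hf] with t a1
    rw [a1, pow_succ]
    ring

/-- composition with the inverse function -/
lemma AI.comp_inv {F r : ℂ → ℂ} (hF : AnalyticAt ℂ F 0) (hF0 : F 0 = 0) (hr : AI r)
    (hr0 : r 0 ≠ 0) (hFr : ∀ᶠ t in 𝓝 (0 : ℂ), F t = t * r t) : ∀ {n : ℕ} {h H : ℂ → ℂ},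
    AnalyticAt ℂ h 0 → AI H → (∀ᶠ t in 𝓝 (0 : ℂ), h (F t) = H t) → AK n h := by
  intro n
  induction n with
  | zero =>
    intro h H hh hH he
    refine ⟨hh, ?_⟩
    have h1 := he.self_of_nhds
    rw [hF0] at h1
    rw [h1]
    exact (hH 0).alg
  | succ n ih =>
    intro h H hh hH he
    have h0 := he.self_of_nhds
    rw [hF0] at h0
    obtain ⟨h₁, hh₁, hs⟩ := split_an hh
    obtain ⟨H₁, hH₁, hS⟩ := hH.split
    refine ⟨hh, by rw [h0]; exact (hH 0).alg, h₁, hs, ih (H := fun t => H₁ t * (r t)⁻¹) hh₁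
      (fun m => (hH₁ m).mul ((hr m).inv hr0)) ?_⟩
    have hc : AnalyticAt ℂ (fun t => h₁ (F t)) 0 := by
      apply AnalyticAt.fun_comp (g := h₁) (f := F) _ hF
      rwa [hF0]
    refine eq_of_mul hc (hH₁.an.mul (hr.an.inv hr0)) ?_
    have h5 : Tendsto F (𝓝 0) (𝓝 0) := by
      have := hF.continuousAt.tendsto
      rwa [hF0] at this
    filter_upwards [h5.eventually hs, hS, he, hFr, hr.an.continuousAt.eventually_ne hr0]
      with t a1 a2 a3 a4 a5
    rw [a3, a2, ← h0, a4] at a1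
    rw [a4]
    field_simp
    linear_combination -a1

end Pool.Agent.H489.EX
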