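import Pool.Agent.H489.EX.F

/-!
Algebraic functions over the algebraic numbers have algebraic Taylor coefficients.
-/

open Complex Filter Topology Polynomial
open scoped Polynomial.Bivariate

namespace Pool.Agent.H489.EX

open Pool.Agent.H489.CU

/-- the algebraic numbers -/
abbrev KK : Type := (algebraicClosure ℚ ℂ : IntermediateField ℚ ℂ)

section
variable {R : Type} [CommRing R] [Algebra R ℂ]

lemma aa_sum (H : R[X][Y]) (x y : ℂ) :
    aevalAeval x y H = ∑ j ∈ Finset.range (H.natDegree + 1), aeval x (H.coeff j) * y ^ j := by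
  conv_lhs => rw [H.as_sum_range]
  rw [map_sum]
  refine Finset.sum_congr rfl fun j _ => ?_
  rw [← C_mul_X_pow_eq_monomial, map_mul, map_pow, aevalAeval_C, aevalAeval_Y]

lemma aa_eval₂ (H : R[X][Y]) (x y : ℂ) :
    aevalAeval x y H = H.eval₂ (aeval x : R[X] →ₐ[R] ℂ).toRingHom y := by
  rw [aa_sum, eval₂_eq_sum_range]
  rfl

lemma aa_cont (q : R[X][Y]) {f : ℂ → ℂ} (hf : ContinuousAt f 0) :
    ContinuousAt (fun t => aevalAeval (f t) t q) 0 := by
  have h0 : (fun t => aevalAeval (f t) t q) = fun t => ∑ j ∈ Finset.range (q.natDegree + 1),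
      aeval (f t) (q.coeff j) * t ^ j := by
    funext t
    rw [aa_sum]
  rw [h0]
  refine tendsto_finsetSum _ fun j _ => ?_
  refine Tendsto.mul ?_ ?_
  · have h1 : Continuous fun x : ℂ => aeval x (q.coeff j) := by
      have : (fun x : ℂ => aeval x (q.coeff j)) =
          fun x => ((q.coeff j).map (algebraMap R ℂ)).eval x := by
        funext x
        rw [aeval_def, eval₂_eq_eval_map]
      rw [this]
      exact Polynomial.continuous _
    exact (h1.continuousAt (x := f 0)).comp hf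
  · exact (continuous_pow j).tendsto 0

lemma aa_zero (q : R[X][Y]) (x : ℂ) : aevalAeval x 0 q = aeval x (q.coeff 0) := by
  rw [aa_sum, Finset.sum_eq_single 0]
  · rw [pow_zero, mul_one]
  · intro j _ hj
    rw [zero_pow hj, mul_zero]
  · intro h
    exact absurd (Finset.mem_range.2 (Nat.succ_pos _)) h

end

lemma KK_alg {x : ℂ} (h : IsAlgebraic KK x) : IsAlgebraic ℚ x := by
  have h2 : Algebra.IsAlgebraic ℚ (algebraicClosure ℚ ℂ) := algebraicClosure.isAlgebraic ℚ ℂ
  exact h.restrictScalars ℚ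

lemma lim_alg {H : KK[X][Y]} (hH : H ≠ 0) {f : ℂ → ℂ} (hf : ContinuousAt f 0)
    (h : ∀ᶠ t in 𝓝[≠] (0 : ℂ), aevalAeval t (f t) H = 0) : IsAlgebraic ℚ (f 0) := by
  have hH' : Bivariate.swap H ≠ 0 := by
    intro h0
    apply hH
    rw [← Bivariate.swap_swap_apply H, h0, map_zero]
  obtain ⟨q, hq, hnd⟩ := exists_eq_pow_rootMultiplicity_mul_and_not_dvd (Bivariate.swap H) hH' 0
  rw [map_zero, sub_zero] at hq hnd
  rw [X_dvd_iff] at hnd
  have h1 : ∀ᶠ t in 𝓝[≠] (0 : ℂ), aevalAeval (f t) t q = 0 := by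
    filter_upwards [h, self_mem_nhdsWithin] with t a1 a2
    have a2' : t ≠ 0 := a2
    rw [← Bivariate.aevalAeval_swap, hq, map_mul, map_pow, aevalAeval_Y] at a1
    exact (mul_eq_zero.1 a1).resolve_left (pow_ne_zero _ a2')
  have h2 : Tendsto (fun t => aevalAeval (f t) t q) (𝓝[≠] 0) (𝓝 (aevalAeval (f 0) 0 q)) :=
    (aa_cont q hf).tendsto.mono_left nhdsWithin_le_nhds
  have h3 : aevalAeval (f 0) 0 q = 0 := by
    refine tendsto_nhds_unique h2 ?_
    refine tendsto_const_nhds.congr' ?_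
    filter_upwards [h1] with t a1
    exact a1.symm
  rw [aa_zero] at h3
  exact KK_alg ⟨_, hnd, h3⟩

lemma red (H : KK[X][Y]) (c : KK) (x y : ℂ) :
    aevalAeval x y (H.comp (C (C c) + C X * Y)) = aevalAeval x ((c : ℂ) + x * y) H := by
  have hq : aevalAeval x y (C (C c) + C X * Y : KK[X][Y]) = (c : ℂ) + x * y := by
    rw [map_add, map_mul, aevalAeval_C, aevalAeval_C, aevalAeval_Y, aeval_X, aeval_C]
    rfl
  rw [aa_eval₂, eval₂_comp, ← aa_eval₂ (C (C c) + C X * Y), hq, ← aa_eval₂]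

theorem of_alg : ∀ {n : ℕ} {H : KK[X][Y]} {f : ℂ → ℂ}, H ≠ 0 → AnalyticAt ℂ f 0 →
    (∀ᶠ t in 𝓝[≠] (0 : ℂ), aevalAeval t (f t) H = 0) → AK n f := by
  intro n
  induction n with
  | zero => exact fun hH hf h => ⟨hf, lim_alg hH hf.continuousAt h⟩
  | succ n ih =>
    intro H f hH hf h
    obtain ⟨g, hg, hs⟩ := split_an hf
    have halg := lim_alg hH hf.continuousAt h
    set c : KK := ⟨f 0, mem_algebraicClosure_iff.2 halg⟩ with hc
    refine ⟨hf, halg, g, hs, ih (H := H.comp (C (C c) + C X * Y)) ?_ hg ?_⟩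
    · have hdeg : (C (C c) + C X * Y : KK[X][Y]).natDegree = 1 := by
        rw [add_comm]
        exact natDegree_linear X_ne_zero
      intro h0
      have h1 := leadingCoeff_comp (p := H) (q := (C (C c) + C X * Y : KK[X][Y])) (by
        rw [hdeg]
        exact one_ne_zero)
      rw [h0, leadingCoeff_zero] at h1
      have h2 : (C (C c) + C X * Y : KK[X][Y]).leadingCoeff ≠ 0 := by
        intro h3
        rw [leadingCoeff_eq_zero] at h3
        rw [h3, natDegree_zero] at hdeg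
        exact zero_ne_one hdeg
      exact mul_ne_zero (leadingCoeff_ne_zero.2 hH) (pow_ne_zero _ h2) h1.symm
    · filter_upwards [h, nhdsWithin_le_nhds hs] with t a1 a2
      rw [red]
      have : ((c : KK) : ℂ) = f 0 := rfl
      rw [this, ← a2]
      exact a1

theorem of_algZ {e : ℕ} (he : 0 < e) {P : ℤ[X][Y]} (hP : P ≠ 0) {w : ℂ → ℂ}
    (hw : AnalyticAt ℂ w 0) (h : ∀ᶠ t in 𝓝[≠] (0 : ℂ), evZ P ((t ^ e)⁻¹) (w t) = 0) : AI w := by
  set P' : KK[X][Y] := P.map (mapRingHom (algebraMap ℤ KK)) with hP'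
  have hinj : Function.Injective (algebraMap ℤ KK) := (algebraMap ℤ KK).injective_int
  have hP'0 : P' ≠ 0 := by
    rw [hP', Ne, Polynomial.map_eq_zero_iff (Polynomial.map_injective _ hinj)]
    exact hP
  have hev : ∀ x y : ℂ, aevalAeval x y P' = evZ P x y := by
    intro x y
    rw [evZ_hom, aa_eval₂, aa_eval₂, hP', eval₂_map]
    congr 1
    refine Polynomial.ringHom_ext' (RingHom.ext_int _ _) ?_
    show aeval x ((X : ℤ[X]).map (algebraMap ℤ KK)) = aeval x (X : ℤ[X])
    rw [Polynomial.map_X, aeval_X, aeval_X]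
  have hS0 : Bivariate.swap P' ≠ 0 := by
    intro h0
    apply hP'0
    rw [← Bivariate.swap_swap_apply P', h0, map_zero]
  set rv : KK[X][Y] := (Bivariate.swap P').reverse with hrv
  have hrv0 : rv ≠ 0 := by
    rw [hrv, Ne, reverse_eq_zero]
    exact hS0
  set ex : KK[X][Y] := rv.comp (Y ^ e) with hex
  have hex0 : ex ≠ 0 := by
    intro h0
    have h1 := leadingCoeff_comp (p := rv) (q := (Y ^ e : KK[X][Y])) (by
      rw [natDegree_X_pow]
      exact he.ne')
    rw [← hex, h0, leadingCoeff_zero, leadingCoeff_X_pow, one_pow, mul_one] at h1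
    exact leadingCoeff_ne_zero.2 hrv0 h1.symm
  have hH0 : Bivariate.swap ex ≠ 0 := by
    intro h0
    apply hex0
    rw [← Bivariate.swap_swap_apply ex, h0, map_zero]
  intro n
  refine of_alg (H := Bivariate.swap ex) hH0 hw ?_
  filter_upwards [h, self_mem_nhdsWithin] with t a1 a2
  have a2' : t ≠ 0 := a2
  rw [Bivariate.aevalAeval_swap, aa_eval₂, hex, eval₂_comp, eval₂_X_pow]
  have hne : (t ^ e)⁻¹ ≠ 0 := inv_ne_zero (pow_ne_zero _ a2')
  let _ : Invertible ((t ^ e)⁻¹) := invertibleOfNonzero hne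
  have h1 := (eval₂_reverse_eq_zero_iff (aeval (w t) : KK[X] →ₐ[KK] ℂ).toRingHom ((t ^ e)⁻¹)
    (Bivariate.swap P')).2 (by
      rw [← aa_eval₂, Bivariate.aevalAeval_swap, hev]
      exact a1)
  rw [invOf_eq_inv, inv_inv] at h1
  exact h1

end Pool.Agent.H489.EX
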