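import Pool.Agent.H489.EX.G

/-!
Algebraicity of the limits of the real parts.
-/

open Complex Filter Topology ComplexConjugate

namespace Pool.Agent.H489.EX

open Pool.Agent.H489.CU

/-- the direction -/
lemma ray {p : ℕ} (hp : 0 < p) (U : Ultrafilter ℂ) {G : ℂ → ℂ}
    (hG : ∀ᶠ s in (U : Filter ℂ), ∃ κ : ℝ, (G s) ^ p * (κ * I) = 1) :
    ∃ ω : ℂ, ω ^ (2 * p) = -1 ∧ ∀ᶠ s in (U : Filter ℂ), G s = ‖G s‖ * ω := by
  have hval : ∀ᶠ s in (U : Filter ℂ), ∃ ω ∈ {ω : ℂ | ω ^ (2 * p) = -1}, G s = ‖G s‖ * ω := by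
    filter_upwards [hG] with s ⟨k, h2⟩
    have hFt : G s ≠ 0 := by
      intro h0
      rw [h0, zero_pow hp.ne', zero_mul] at h2
      exact zero_ne_one h2
    have h3 : (G s) ^ (2 * p) * ((k ^ 2 : ℝ) : ℂ) = -1 := by
      have : (G s) ^ (2 * p) * ((k ^ 2 : ℝ) : ℂ) = -((G s) ^ p * (k * I)) ^ 2 := by
        push_cast
        have hI : I ^ 2 = -1 := I_sq
        rw [mul_comm 2 p, pow_mul]
        linear_combination (((G s) ^ p) ^ 2 * k ^ 2) * hI
      rw [this, h2]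
      norm_num
    have h4 : ‖G s‖ ^ (2 * p) * k ^ 2 = 1 := by
      have := congrArg norm h3
      rw [norm_mul, norm_pow, norm_neg, norm_one, norm_real, Real.norm_of_nonneg (sq_nonneg _)]
        at this
      exact this
    have hn : (‖G s‖ : ℂ) ≠ 0 := by
      exact_mod_cast (norm_pos_iff.2 hFt).ne'
    refine ⟨G s / ‖G s‖, ?_, by field_simp⟩
    show (G s / ‖G s‖) ^ (2 * p) = -1
    have h5 : (‖G s‖ : ℂ) ^ (2 * p) * ((k ^ 2 : ℝ) : ℂ) = 1 := by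
      exact_mod_cast h4
    rw [div_pow, div_eq_iff (pow_ne_zero _ hn)]
    have h6 : ((k ^ 2 : ℝ) : ℂ) ≠ 0 := by
      intro h0
      rw [h0, mul_zero] at h5
      exact zero_ne_one h5
    apply mul_right_cancel₀ h6
    rw [h3, neg_one_mul, neg_mul, h5]
  have hfin : {ω : ℂ | ω ^ (2 * p) = -1}.Finite := by
    refine ((Polynomial.nthRoots (2 * p) (-1 : ℂ)).toFinset.finite_toSet).subset fun ω hω => ?_
    rw [Finset.mem_coe, Multiset.mem_toFinset, Polynomial.mem_nthRoots (by omega)]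
    exact hω
  rw [Ultrafilter.eventually_exists_mem_iff hfin] at hval
  obtain ⟨ω, h1, hω⟩ := hval
  exact ⟨ω, h1, hω⟩

lemma im_mul_I_of {v : ℂ} (hv : v.re = 0) : (v.im : ℂ) * I = v := by
  apply Complex.ext <;> simp [hv]

lemma alg_of_ray {p : ℕ} (hp : 0 < p) {ω : ℂ} (h : ω ^ (2 * p) = -1) : IsAlgebraic ℚ ω := by
  refine IsAlgebraic.of_pow (n := 2 * p) (by omega) ?_
  rw [h]
  exact isAlgebraic_one.neg

/-- convergence -/
lemma conv0 (U : Ultrafilter ℂ) {ρ : ℂ → ℝ} (hρ : Tendsto ρ (U : Filter ℂ) (𝓝 0))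
    (hρ0 : ∀ᶠ s in (U : Filter ℂ), 0 < ρ s) : ∀ {q : ℕ} {m : ℂ → ℂ} {B : ℝ}, AI m →
    (∀ᶠ s in (U : Filter ℂ), ‖m (ρ s)‖ ≤ B * ρ s ^ q) →
    ∃ κ₀ : ℂ, IsAlgebraic ℚ κ₀ ∧
      Tendsto (fun s => ((ρ s : ℂ) ^ q)⁻¹ * m (ρ s)) (U : Filter ℂ) (𝓝 κ₀) := by
  have hρc : Tendsto (fun s => ((ρ s : ℝ) : ℂ)) (U : Filter ℂ) (𝓝 0) := by
    have h2 := (continuous_ofReal.tendsto (0 : ℝ)).comp hρ
    rw [ofReal_zero] at h2
    exact h2
  intro q
  induction q with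
  | zero =>
    intro m B hm _
    refine ⟨m 0, (hm 0).alg, ?_⟩
    have h1 := (hm.an.continuousAt.tendsto).comp hρc
    refine h1.congr fun s => ?_
    simp
  | succ q ih =>
    intro m B hm hB
    have h0 : m 0 = 0 := by
      have h1 : Tendsto (fun s => ‖m (ρ s)‖) (U : Filter ℂ) (𝓝 ‖m 0‖) :=
        ((hm.an.continuousAt.tendsto).comp hρc).norm
      have h2 : Tendsto (fun s => B * ρ s ^ (q + 1)) (U : Filter ℂ) (𝓝 0) := by
        have := (hρ.pow (q + 1)).const_mul B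
        simpa using this
      have h3 := le_of_tendsto_of_tendsto h1 h2 hB
      exact norm_le_zero_iff.1 h3
    obtain ⟨m₁, hm₁, hs⟩ := hm.split
    have hms : ∀ᶠ s in (U : Filter ℂ), m (ρ s) = ρ s * m₁ (ρ s) := by
      filter_upwards [hρc.eventually hs] with s a1
      rw [a1, h0, zero_add]
    obtain ⟨κ₀, h1, h2⟩ := ih (B := B) hm₁ (by
      filter_upwards [hms, hB, hρ0] with s a1 a2 a3
      rw [a1, norm_mul, norm_real, Real.norm_of_nonneg a3.le, pow_succ] at a2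
      have : ρ s * ‖m₁ (ρ s)‖ ≤ ρ s * (B * ρ s ^ q) := by
        calc ρ s * ‖m₁ (ρ s)‖ ≤ B * (ρ s ^ q * ρ s) := a2
          _ = ρ s * (B * ρ s ^ q) := by ring
      exact le_of_mul_le_mul_left this a3)
    refine ⟨κ₀, h1, h2.congr' ?_⟩
    filter_upwards [hms, hρ0] with s a1 a2
    have a3 : ((ρ s : ℝ) : ℂ) ≠ 0 := by exact_mod_cast a2.ne'
    rw [a1, pow_succ]
    field_simp

lemma conv1 (U : Ultrafilter ℂ) {ρ : ℂ → ℝ} (hρ : Tendsto ρ (U : Filter ℂ) (𝓝 0))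
    (hρ0 : ∀ᶠ s in (U : Filter ℂ), 0 < ρ s) {q : ℕ} {k : ℂ → ℂ} {B : ℝ} (hk : AI k)
    (hB : ∀ᶠ s in (U : Filter ℂ), |(((ρ s : ℂ) ^ q)⁻¹ * k (ρ s)).re| ≤ B) :
    ∃ κ₀ : ℂ, IsAlgebraic ℚ κ₀ ∧ Tendsto (fun s =>
      ((2 * (((ρ s : ℂ) ^ q)⁻¹ * k (ρ s)).re : ℝ) : ℂ)) (U : Filter ℂ) (𝓝 κ₀) := by
  have hm : AI (fun z => k z + cc k z) := fun n => (hk n).add (hk n).cc
  have hval : ∀ s, ((2 * (((ρ s : ℂ) ^ q)⁻¹ * k (ρ s)).re : ℝ) : ℂ) =
      ((ρ s : ℂ) ^ q)⁻¹ * (k (ρ s) + cc k (ρ s)) := by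
    intro s
    have h1 : cc k (ρ s) = conj (k (ρ s)) := by
      unfold cc
      rw [conj_ofReal]
    have h2 : ((ρ s : ℂ) ^ q)⁻¹ = (((ρ s ^ q)⁻¹ : ℝ) : ℂ) := by push_cast; rfl
    rw [h1, add_conj, h2, re_ofReal_mul]
    push_cast
    ring
  obtain ⟨κ₀, h1, h2⟩ := conv0 U hρ hρ0 (q := q) (B := 2 * B) hm (by
    filter_upwards [hB, hρ0] with s a1 a2
    have h3 := congrArg norm (hval s)
    rw [norm_real, Real.norm_eq_abs, abs_mul, abs_two, norm_mul, norm_inv, norm_pow, norm_real,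
      Real.norm_of_nonneg a2.le] at h3
    have h4 : 0 < ρ s ^ q := pow_pos a2 q
    rw [eq_inv_mul_iff_mul_eq₀ h4.ne'] at h3
    rw [← h3]
    have h5 : ρ s ^ q * (2 * |(((ρ s : ℂ) ^ q)⁻¹ * k (ρ s)).re|) ≤ ρ s ^ q * (2 * B) := by
      gcongr
    linarith)
  exact ⟨κ₀, h1, h2.congr fun s => (hval s).symm⟩

lemma AI.id : AI (fun t : ℂ => t) := by
  intro n
  cases n with
  | zero => exact ⟨analyticAt_id, isAlgebraic_zero⟩
  | succ n =>
    refine (AK.tmul (AK.const (isAlgebraic_one (R := ℚ) (A := ℂ)) n)).congr ?_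
    exact Eventually.of_forall fun t => mul_one t

lemma AI.mul {f g : ℂ → ℂ} (hf : AI f) (hg : AI g) : AI (fun t => f t * g t) :=
  fun n => (hf n).mul (hg n)

lemma AI.add {f g : ℂ → ℂ} (hf : AI f) (hg : AI g) : AI (fun t => f t + g t) :=
  fun n => (hf n).add (hg n)

lemma AI.const {c : ℂ} (hc : IsAlgebraic ℚ c) : AI (fun _ => c) := AK.const hc

lemma AI.congr {f g : ℂ → ℂ} (hf : AI f) (e : ∀ᶠ t in 𝓝 (0 : ℂ), f t = g t) : AI g :=
  fun n => (hf n).congr e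

lemma AI.sub {f g : ℂ → ℂ} (hf : AI f) (hg : AI g) : AI (fun t => f t - g t) := by
  refine (hf.add ((AI.const (isAlgebraic_one.neg : IsAlgebraic ℚ (-1 : ℂ))).mul hg)).congr ?_
  exact Eventually.of_forall fun t => by ring

lemma AI.pow {f : ℂ → ℂ} (hf : AI f) : ∀ k : ℕ, AI (fun t => f t ^ k) := by
  intro k
  induction k with
  | zero =>
    exact (AI.const (isAlgebraic_one (R := ℚ) (A := ℂ))).congr
      (Eventually.of_forall fun t => (pow_zero _).symm)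
  | succ k ih => exact (ih.mul hf).congr (Eventually.of_forall fun t => (pow_succ _ _).symm)

lemma AI.inv {f : ℂ → ℂ} (hf : AI f) (h0 : f 0 ≠ 0) : AI (fun t => (f t)⁻¹) :=
  fun n => (hf n).inv h0

lemma AI.zpow {f : ℂ → ℂ} (hf : AI f) (h0 : f 0 ≠ 0) (k : ℤ) : AI (fun t => f t ^ k) := by
  cases k with
  | ofNat m =>
    exact (hf.pow m).congr (Eventually.of_forall fun t => by
      rw [Int.ofNat_eq_natCast, zpow_natCast])
  | negSucc m =>
    exact ((hf.pow (m + 1)).inv (pow_ne_zero _ h0)).congr (Eventually.of_forall fun t => by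
      rw [zpow_negSucc])

lemma AI_log {β : ℂ → ℂ} (hβ : AI β) (h0 : β 0 ≠ 0) : ∃ N : ℂ → ℂ, AI N ∧
    ∀ᶠ t in 𝓝 (0 : ℂ), exp (N t) * β 0 = β t := by
  have hd : AnalyticAt ℂ (fun t => β t / β 0) 0 := hβ.an.div analyticAt_const h0
  have h1 : β 0 / β 0 ∈ slitPlane := by simp [div_self h0]
  have han : AnalyticAt ℂ (fun t => log (β t / β 0)) 0 := hd.clog h1
  refine ⟨fun t => log (β t / β 0), ?_, ?_⟩
  · have hN0 : log (β 0 / β 0) = 0 := by rw [div_self h0, log_one]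
    intro n
    cases n with
    | zero => exact ⟨han, by
        show IsAlgebraic ℚ (log (β 0 / β 0))
        rw [hN0]
        exact isAlgebraic_zero⟩
    | succ n =>
      refine AK.of_deriv han (by
        show IsAlgebraic ℚ (log (β 0 / β 0))
        rw [hN0]
        exact isAlgebraic_zero) ?_
      refine ((hβ (n + 1)).deriv.mul ((hβ n).inv h0)).congr ?_
      have h2 : ∀ᶠ t in 𝓝 (0 : ℂ), β t / β 0 ∈ slitPlane :=
        hd.continuousAt.eventually (isOpen_slitPlane.mem_nhds h1)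
      filter_upwards [h2, hβ.an.eventually_analyticAt, hβ.an.continuousAt.eventually_ne h0]
        with t a1 a2 a3
      have h3 : HasDerivAt (fun t => β t / β 0) (deriv β t / β 0) t :=
        a2.differentiableAt.hasDerivAt.div_const _
      rw [(h3.clog a1).deriv]
      field_simp
  · filter_upwards [hβ.an.continuousAt.eventually_ne h0] with t ht
    rw [exp_log (div_ne_zero ht h0), div_mul_cancel₀ _ h0]

lemma AI_root {G : ℂ → ℂ} (hG : AI G) (h0 : G 0 ≠ 0) {p : ℕ} (hp : 0 < p) : ∃ r : ℂ → ℂ,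
    AI r ∧ (∀ t, r t ≠ 0) ∧ ∀ᶠ t in 𝓝 (0 : ℂ), r t ^ p * G t = 1 := by
  obtain ⟨ℓ, hℓ, hℓe⟩ := an_log hG.an h0
  have hp' : (p : ℂ) ≠ 0 := by exact_mod_cast hp.ne'
  obtain ⟨r, hr⟩ : ∃ r : ℂ → ℂ, r = fun t => exp (-(ℓ t) / p) := ⟨_, rfl⟩
  have hra : AnalyticAt ℂ r 0 := by
    rw [hr]
    exact (hℓ.neg.div analyticAt_const hp').cexp
  have hrp : ∀ᶠ t in 𝓝 (0 : ℂ), r t ^ p * G t = 1 := by
    filter_upwards [hℓe] with t ht
    rw [← ht, hr]
    simp only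
    rw [← exp_nat_mul, ← exp_add]
    have : (p : ℂ) * (-(ℓ t) / p) + ℓ t = 0 := by
      field_simp
      ring
    rw [this, exp_zero]
  have hr0 : IsAlgebraic ℚ (r 0) := by
    refine IsAlgebraic.of_pow hp ?_
    have h1 := hrp.self_of_nhds
    rw [eq_inv_of_mul_eq_one_left h1]
    exact (hG 0).alg.inv
  refine ⟨r, ?_, fun t => by rw [hr]; exact exp_ne_zero _, hrp⟩
  intro n
  induction n with
  | zero => exact ⟨hra, hr0⟩
  | succ n ih =>
    refine AK.of_deriv hra hr0 ?_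
    have halg : IsAlgebraic ℚ (-(p : ℂ)⁻¹) := (isAlgebraic_natCast (R := ℚ) p).inv.neg
    refine (((AK.const halg n).mul ((hG (n + 1)).deriv.mul ((hG n).inv h0))).mul ih).congr ?_
    have h1 : (fun t => exp (ℓ t)) =ᶠ[𝓝 0] G := hℓe
    filter_upwards [h1.deriv, hℓe, hℓ.eventually_analyticAt, hG.an.continuousAt.eventually_ne h0]
      with t a1 a2 a3 a4
    have h2 := a3.differentiableAt.hasDerivAt
    rw [h2.cexp.deriv, a2] at a1
    have h3 : HasDerivAt r (exp (-(ℓ t) / p) * (-(deriv ℓ t) / p)) t := by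
      rw [hr]
      exact (h2.neg.div_const _).cexp
    rw [h3.deriv, ← a1, hr]
    field_simp

/-- algebraicity of the limits of the real parts -/
theorem lemP (U : Ultrafilter ℂ) (h : Str (U : Filter ℂ)) {e : ℕ} (he : 0 < e) {p : ℕ}
    (hp : 0 < p) {g β k : ℂ → ℂ} (hg : AI g) (hg0 : g 0 ≠ 0) (hβ : AI β) (hβ1 : ‖β 0‖ = 1)
    (hv : ∀ᶠ s in (U : Filter ℂ), exp (((tt e s) ^ p)⁻¹ * g (tt e s)) = β (tt e s))
    {q : ℕ} (hk : AI k) {B : ℝ}
    (hB : ∀ᶠ s in (U : Filter ℂ), |(((tt e s) ^ q)⁻¹ * k (tt e s)).re| ≤ B) :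
    ∃ κ₀ : ℂ, IsAlgebraic ℚ κ₀ ∧ Tendsto (fun s =>
      ((2 * (((tt e s) ^ q)⁻¹ * k (tt e s)).re : ℝ) : ℂ)) (U : Filter ℂ) (𝓝 κ₀) := by
  have hβ0 : β 0 ≠ 0 := by
    intro h0
    rw [h0, norm_zero] at hβ1
    exact zero_ne_one hβ1
  obtain ⟨N, hN, hNe⟩ := AI_log hβ hβ0
  obtain ⟨G, hG⟩ : ∃ G : ℂ → ℂ, G = fun t => g t - t ^ p * N t := ⟨_, rfl⟩
  have hGA : AI G := by
    rw [hG]
    exact hg.sub ((AI.id.pow p).mul hN)
  have hG0 : G 0 ≠ 0 := by
    rw [hG]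
    simpa [hp.ne'] using hg0
  obtain ⟨r, hr, hrn, hrp⟩ := AI_root hGA hG0 hp
  obtain ⟨F, hF⟩ : ∃ F : ℂ → ℂ, F = fun t => t * r t := ⟨_, rfl⟩
  have hFa : AnalyticAt ℂ F 0 := by
    rw [hF]
    exact analyticAt_id.mul hr.an
  have hF0 : F 0 = 0 := by rw [hF]; simp
  have hFd : deriv F 0 ≠ 0 := by
    have h1 : HasDerivAt F (1 * r 0 + 0 * deriv r 0) 0 := by
      rw [hF]
      exact (hasDerivAt_id (0 : ℂ)).mul hr.an.differentiableAt.hasDerivAt
    rw [h1.deriv]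
    simpa using hrn 0
  obtain ⟨ψ, hψ, hψ0, hψF⟩ := an_inv hFa hF0 hFd
  obtain ⟨ω, hω1, hω⟩ := ray hp U (G := fun s => F (tt e s)) (by
    filter_upwards [hv, (h.zero' he).eventually hNe, (h.zero' he).eventually hrp] with s a1 a2 a3
    have ht := tt_ne e s
    set t := tt e s with ht_def
    have h1 : exp ((t ^ p)⁻¹ * G t) = β 0 := by
      have h2 : (t ^ p)⁻¹ * G t = (t ^ p)⁻¹ * g t - N t := by
        rw [hG]
        field_simp
      rw [h2, exp_sub, a1, ← a2, mul_div_cancel_left₀ _ (exp_ne_zero _)]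
    have h3 : ((t ^ p)⁻¹ * G t).re = 0 := by
      have := congrArg norm h1
      rw [norm_exp, hβ1, Real.exp_eq_one_iff] at this
      exact this
    refine ⟨((t ^ p)⁻¹ * G t).im, ?_⟩
    have h4 : (((t ^ p)⁻¹ * G t).im : ℂ) * I = (t ^ p)⁻¹ * G t := im_mul_I_of h3
    rw [h4, hF]
    simp only
    rw [mul_pow]
    have : t ^ p * r t ^ p * ((t ^ p)⁻¹ * G t) = r t ^ p * G t := by
      field_simp
    rw [this, a3])
  have hωa := alg_of_ray hp hω1
  have hω0 : ω ≠ 0 := by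
    intro h0
    rw [h0, zero_pow (by omega)] at hω1
    have : (1 : ℂ) = 0 := by linear_combination hω1
    exact one_ne_zero this
  -- the transported function
  have hcψ : ∀ {u : ℂ → ℂ}, AnalyticAt ℂ u 0 → AnalyticAt ℂ (fun z => u (ψ z)) 0 := by
    intro u hu
    apply AnalyticAt.fun_comp (g := u) (f := ψ) _ hψ
    rwa [hψ0]
  obtain ⟨H, hH⟩ : ∃ H : ℂ → ℂ, H = fun u => r (ψ u) ^ q * k (ψ u) := ⟨_, rfl⟩
  have hHA : AI H := by
    intro n
    refine AI.comp_inv (F := F) (r := r) hFa hF0 hr (hrn 0)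
      (Eventually.of_forall fun t => by rw [hF]) (H := fun t => r t ^ q * k t) ?_
      ((hr.pow q).mul hk) ?_
    · rw [hH]
      exact ((hcψ hr.an).pow q).mul (hcψ hk.an)
    · filter_upwards [hψF] with t ht
      rw [hH]
      simp only
      rw [ht]
  have hkA : AI (fun z => (ω ^ q)⁻¹ * H (z * ω)) :=
    (AI.const (hωa.pow q).inv).mul fun n => (hHA n).scale hωa
  have hρ : Tendsto (fun s => ‖F (tt e s)‖) (U : Filter ℂ) (𝓝 0) := by
    have h1 := (h.lim he hFa).norm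
    rwa [hF0, norm_zero] at h1
  have hFn : ∀ s, F (tt e s) ≠ 0 := by
    intro s
    rw [hF]
    exact mul_ne_zero (tt_ne e s) (hrn _)
  have hval : ∀ᶠ s in (U : Filter ℂ), ((tt e s) ^ q)⁻¹ * k (tt e s) =
      (((‖F (tt e s)‖ : ℝ) : ℂ) ^ q)⁻¹ *
        ((ω ^ q)⁻¹ * H (((‖F (tt e s)‖ : ℝ) : ℂ) * ω)) := by
    filter_upwards [hω, (h.zero' he).eventually hψF] with s a1 a2
    rw [← a1, ← mul_assoc, ← mul_inv, ← mul_pow, ← a1, hH]
    simp only
    rw [a2, hF]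
    simp only
    have h1 := tt_ne e s
    have h2 := hrn (tt e s)
    rw [mul_pow]
    field_simp
  obtain ⟨κ₀, h1, h2⟩ := conv1 U hρ (Eventually.of_forall fun s => norm_pos_iff.2 (hFn s))
    (q := q) (B := B) hkA (by
      filter_upwards [hval, hB] with s a1 a2
      rw [← a1]
      exact a2)
  refine ⟨κ₀, h1, h2.congr' ?_⟩
  filter_upwards [hval] with s a1
  rw [← a1]

end Pool.Agent.H489.EX
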