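import Pool.Agent.H489.EX.H

/-!
The linear relation between the limits of the real parts.
-/

open Complex Filter Topology ComplexConjugate

namespace Pool.Agent.H489.EX

open Pool.Agent.H489.CU

/-- the linear relation -/
theorem lemL (U : Ultrafilter ℂ) (h : Str (U : Filter ℂ)) {e : ℕ} (he : 0 < e) {b w : ℂ → ℂ}
    (hb : AnalyticAt ℂ b 0) (hb0 : b 0 ≠ 0)
    (hv : ∀ᶠ s in (U : Filter ℂ), exp (((tt e s) ^ e)⁻¹) = b (tt e s)) (hw : AI w)
    (hwr : (w 0).im = 0) {B : ℝ}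
    (hB : ∀ᶠ s in (U : Filter ℂ), |(((tt e s) ^ e)⁻¹ * w (tt e s)).re| ≤ B) :
    ∃ κ₀ : ℂ, IsAlgebraic ℚ κ₀ ∧ Tendsto (fun s =>
      ((2 * (((tt e s) ^ e)⁻¹ * w (tt e s)).re : ℝ) : ℂ)) (U : Filter ℂ)
      (𝓝 (κ₀ + w 0 * ((2 * Real.log ‖b 0‖ : ℝ) : ℂ))) := by
  have he' : (e : ℂ) ≠ 0 := by exact_mod_cast he.ne'
  obtain ⟨L, hL, hLe⟩ := an_log hb hb0
  obtain ⟨G, hG⟩ : ∃ G : ℂ → ℂ, G = fun t => 1 - t ^ e * L t := ⟨_, rfl⟩
  have hGa : AnalyticAt ℂ G 0 := by
    rw [hG]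
    exact analyticAt_const.sub ((analyticAt_id.pow e).mul hL)
  have hG0 : G 0 = 1 := by
    rw [hG]
    simp [he.ne']
  have hGs : G 0 ∈ slitPlane := by rw [hG0]; exact one_mem_slitPlane
  obtain ⟨r, hr⟩ : ∃ r : ℂ → ℂ, r = fun t => exp (-(log (G t)) / e) := ⟨_, rfl⟩
  have hra : AnalyticAt ℂ r 0 := by
    rw [hr]
    exact ((hGa.clog hGs).neg.div analyticAt_const he').cexp
  have hr0 : r 0 = 1 := by
    rw [hr]
    simp [hG0]
  have hrn : ∀ t, r t ≠ 0 := fun t => by rw [hr]; exact exp_ne_zero _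
  have hrp : ∀ᶠ t in 𝓝 (0 : ℂ), r t ^ e * G t = 1 := by
    filter_upwards [hGa.continuousAt.eventually_ne (show G 0 ≠ 0 by rw [hG0]; exact one_ne_zero)]
      with t ht
    have h1 : G t = exp (log (G t)) := (exp_log ht).symm
    have h2 : r t ^ e = exp (-(log (G t))) := by
      rw [hr]
      simp only
      rw [← exp_nat_mul]
      congr 1
      field_simp
    rw [h2]
    nth_rewrite 2 [h1]
    rw [← exp_add, neg_add_cancel, exp_zero]
  obtain ⟨F, hF⟩ : ∃ F : ℂ → ℂ, F = fun t => t * r t := ⟨_, rfl⟩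
  have hFa : AnalyticAt ℂ F 0 := by
    rw [hF]
    exact analyticAt_id.mul hra
  have hF0 : F 0 = 0 := by rw [hF]; simp
  have hFn : ∀ s, F (tt e s) ≠ 0 := by
    intro s
    rw [hF]
    exact mul_ne_zero (tt_ne e s) (hrn _)
  have hFe : ∀ᶠ s in (U : Filter ℂ), ((F (tt e s)) ^ e)⁻¹ = ((tt e s) ^ e)⁻¹ - L (tt e s) := by
    filter_upwards [(h.zero' he).eventually hrp] with s a3
    have ht := tt_ne e s
    set t := tt e s with ht_def
    have h1 := hrn t
    have h2 : ((F t) ^ e)⁻¹ = (t ^ e)⁻¹ * G t := by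
      rw [hF]
      simp only
      rw [mul_pow, mul_inv, eq_inv_of_mul_eq_one_right a3]
    rw [h2, hG]
    field_simp
  obtain ⟨ω, hω1, hω⟩ := ray he U (G := fun s => F (tt e s)) (by
    filter_upwards [hv, (h.zero' he).eventually hLe, hFe] with s a1 a2 a3
    have h1 : exp (((F (tt e s)) ^ e)⁻¹) = 1 := by
      rw [a3, exp_sub, a1, a2, div_self]
      rw [← a2]
      exact exp_ne_zero _
    have h3 : (((F (tt e s)) ^ e)⁻¹).re = 0 := by
      have := congrArg norm h1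
      rw [norm_exp, norm_one, Real.exp_eq_one_iff] at this
      exact this
    refine ⟨(((F (tt e s)) ^ e)⁻¹).im, ?_⟩
    rw [im_mul_I_of h3, mul_inv_cancel₀ (pow_ne_zero _ (hFn s))])
  have hωa := alg_of_ray he hω1
  -- the difference
  obtain ⟨S, hS⟩ : ∃ S : ℂ → ℂ, S = fun t => ∑ i ∈ Finset.range e, r t ^ i := ⟨_, rfl⟩
  have hSc : ContinuousAt S 0 := by
    rw [hS]
    exact tendsto_finsetSum _ fun i _ => (hra.continuousAt.tendsto.pow i)
  have hS0 : S 0 = e := by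
    rw [hS]
    simp [hr0]
  have hSG0 : S 0 * G 0 ≠ 0 := by
    rw [hS0, hG0, mul_one]
    exact he'
  have hφ : ∀ᶠ t in 𝓝 (0 : ℂ), t ≠ 0 → (t ^ e)⁻¹ * (t - F t) = -(t * L t) / (S t * G t) := by
    filter_upwards [hrp, (hSc.mul hGa.continuousAt).eventually_ne hSG0] with t a1 a2 a3
    have h1 : (1 - r t) * S t = 1 - r t ^ e := by
      rw [hS]
      simp only
      rw [mul_neg_geom_sum]
    have h2 : (1 - r t) * (S t * G t) = -(t ^ e * L t) := by
      have h3 : G t - 1 = -(t ^ e * L t) := by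
        rw [hG]
        simp only
        ring
      linear_combination G t * h1 - a1 + h3
    have h4 : t - F t = t * (1 - r t) := by
      rw [hF]
      simp only
      ring
    have h5 : 1 - r t = -(t ^ e * L t) / (S t * G t) := by
      have a2' : S t * G t ≠ 0 := a2
      rw [eq_div_iff a2']
      exact h2
    rw [h4, h5]
    field_simp
  have hlim1 : Tendsto (fun s => ((tt e s) ^ e)⁻¹ * (w (tt e s) - w (F (tt e s))))
      (U : Filter ℂ) (𝓝 0) := by
    have h1 : HasStrictDerivAt w (deriv w 0) 0 := hw.an.hasStrictDerivAt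
    have h2 := h1.hasStrictFDerivAt.isBigO_sub
    have h3 : Tendsto (fun s => (tt e s, F (tt e s))) (U : Filter ℂ) (𝓝 ((0 : ℂ), (0 : ℂ))) := by
      rw [nhds_prod_eq]
      refine (h.zero' he).prodMk ?_
      have := h.lim he hFa
      rwa [hF0] at this
    obtain ⟨C, hC⟩ := (h2.comp_tendsto h3).bound
    have h4 : Tendsto (fun s => -(tt e s * L (tt e s)) / (S (tt e s) * G (tt e s)))
        (U : Filter ℂ) (𝓝 0) := by
      have h5 : ContinuousAt (fun t => -(t * L t) / (S t * G t)) 0 :=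
        ((continuousAt_id.mul hL.continuousAt).neg).div (hSc.mul hGa.continuousAt) hSG0
      have h6 : Tendsto (fun s => -(tt e s * L (tt e s)) / (S (tt e s) * G (tt e s)))
          (U : Filter ℂ) (𝓝 (-(0 * L 0) / (S 0 * G 0))) := h5.tendsto.comp (h.zero' he)
      rw [zero_mul, neg_zero, zero_div] at h6
      exact h6
    have h7 := (h4.norm).const_mul C
    rw [norm_zero, mul_zero] at h7
    rw [tendsto_zero_iff_norm_tendsto_zero]
    refine squeeze_zero' (Eventually.of_forall fun _ => norm_nonneg _) ?_ h7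
    filter_upwards [hC, (h.zero' he).eventually hφ] with s a1 a2
    simp only [Function.comp] at a1
    rw [norm_mul, ← a2 (tt_ne e s), norm_mul]
    calc ‖((tt e s) ^ e)⁻¹‖ * ‖w (tt e s) - w (F (tt e s))‖
        ≤ ‖((tt e s) ^ e)⁻¹‖ * (C * ‖tt e s - F (tt e s)‖) := by gcongr
      _ = C * (‖((tt e s) ^ e)⁻¹‖ * ‖tt e s - F (tt e s)‖) := by ring
  have hwF : Tendsto (fun s => w (F (tt e s))) (U : Filter ℂ) (𝓝 (w 0)) := by
    have h1 := h.lim he hFa
    rw [hF0] at h1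
    exact hw.an.continuousAt.tendsto.comp h1
  have hD : Tendsto (fun s => ((tt e s) ^ e)⁻¹ * w (tt e s) -
      ((F (tt e s)) ^ e)⁻¹ * w (F (tt e s))) (U : Filter ℂ) (𝓝 (L 0 * w 0)) := by
    have h1 := hlim1.add ((h.lim he hL).mul hwF)
    rw [zero_add] at h1
    refine h1.congr' ?_
    filter_upwards [hFe] with s a1
    rw [a1]
    ring
  have hDre := (continuous_re.tendsto _).comp hD
  have hρ : Tendsto (fun s => ‖F (tt e s)‖) (U : Filter ℂ) (𝓝 0) := by
    have h1 := (h.lim he hFa).norm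
    rwa [hF0, norm_zero] at h1
  have hkA : AI (fun z => (ω ^ e)⁻¹ * w (z * ω)) :=
    (AI.const (hωa.pow e).inv).mul fun n => (hw n).scale hωa
  have hval : ∀ᶠ s in (U : Filter ℂ), ((F (tt e s)) ^ e)⁻¹ * w (F (tt e s)) =
      (((‖F (tt e s)‖ : ℝ) : ℂ) ^ e)⁻¹ *
        ((ω ^ e)⁻¹ * w (((‖F (tt e s)‖ : ℝ) : ℂ) * ω)) := by
    filter_upwards [hω] with s a1
    rw [← a1, ← mul_assoc, ← mul_inv, ← mul_pow, ← a1]
  obtain ⟨κ₀, h1, h2⟩ := conv1 U hρ (Eventually.of_forall fun s => norm_pos_iff.2 (hFn s))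
    (q := e) (B := B + (|(L 0 * w 0).re| + 1)) hkA (by
      filter_upwards [hval, hB, hDre.abs.eventually_lt_const (lt_add_one _)] with s a1 a2 a3
      rw [← a1]
      simp only [Function.comp, sub_re] at a3
      have h5 := abs_sub_abs_le_abs_sub (((F (tt e s)) ^ e)⁻¹ * w (F (tt e s))).re
        (((tt e s) ^ e)⁻¹ * w (tt e s)).re
      rw [abs_sub_comm] at h5
      linarith)
  refine ⟨κ₀, h1, ?_⟩
  have h3 : Tendsto (fun s => ((2 * (((tt e s) ^ e)⁻¹ * w (tt e s) -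
      ((F (tt e s)) ^ e)⁻¹ * w (F (tt e s))).re : ℝ) : ℂ)) (U : Filter ℂ)
      (𝓝 ((2 * (L 0 * w 0).re : ℝ) : ℂ)) :=
    (continuous_ofReal.tendsto _).comp (hDre.const_mul 2)
  have h4 : ((2 * (L 0 * w 0).re : ℝ) : ℂ) = w 0 * ((2 * Real.log ‖b 0‖ : ℝ) : ℂ) := by
    have h5 := hLe.self_of_nhds
    have h6 : Real.log ‖b 0‖ = (L 0).re := by
      rw [← h5, norm_exp, Real.log_exp]
    have h7 : w 0 = ((w 0).re : ℂ) := by
      apply Complex.ext <;> simp [hwr]
    rw [h6, mul_re, hwr, mul_zero, sub_zero]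
    nth_rewrite 2 [h7]
    push_cast
    ring
  rw [← h4]
  refine (h2.add h3).congr' ?_
  filter_upwards [hval] with s a1
  rw [← a1, sub_re]
  push_cast
  ring

end Pool.Agent.H489.EX
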