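import Pool.Agent.H489.EX.I
import Pool.Graph.R_seed8.H297R2.InBakerThm

/-!
Counterexamples to Schanuel's conjecture along an ultrafilter: the real parts tend to zero.
-/

open Complex Filter Topology Polynomial ComplexConjugate
open scoped Polynomial.Bivariate

namespace Pool.Agent.H489.EX

open Pool.Agent.H489.CU

/-- case B: no pole -/
theorem lemB' {e : ℕ} (he : 0 < e) {P Q R : ℤ[X][Y]} (hP : P ≠ 0) (hQ : Q ≠ 0) (hR : R ≠ 0)
    {a A D : ℂ → ℂ}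
    (hP' : ∀ᶠ t in 𝓝[≠] (0 : ℂ), evZ P ((t ^ e)⁻¹) (a t) = 0)
    (hQ' : ∀ᶠ t in 𝓝[≠] (0 : ℂ), evZ Q ((t ^ e)⁻¹) (A t) = 0)
    (hR' : ∀ᶠ t in 𝓝[≠] (0 : ℂ), evZ R ((t ^ e)⁻¹) (D t) = 0)
    {M L : ℤ} {α : ℂ → ℂ} (hα : ∀ᶠ t in 𝓝[≠] (0 : ℂ), α t = M * a t - L * (t ^ e)⁻¹)
    (hα0 : ∀ᶠ t in 𝓝[≠] (0 : ℂ), α t ≠ 0)
    (hexp : ∀ᶠ t in 𝓝[≠] (0 : ℂ), exp (α t) = D t ^ M * A t ^ (-L)) : False := by
  have h1 : Tendsto (fun n : ℕ => ((n : ℂ) + 1)⁻¹) atTop (𝓝[≠] 0) := by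
    refine tendsto_nhdsWithin_iff.2 ⟨?_, ?_⟩
    · have := tendsto_one_div_add_atTop_nhds_zero_nat (𝕜 := ℂ)
      simpa [one_div] using this
    · refine Eventually.of_forall fun n => ?_
      show ((n : ℂ) + 1)⁻¹ ≠ 0
      exact inv_ne_zero (by exact_mod_cast Nat.succ_ne_zero n)
  obtain ⟨n, a1, a2, a3, a4, a5, a6, a7, a8, a9⟩ := (h1.eventually (hP'.and (hQ'.and (hR'.and
    (hα.and (hα0.and (hexp.and ((lc_ne hP (inv_ne he)).and ((lc_ne hQ (inv_ne he)).and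
      (lc_ne hR (inv_ne he))))))))))).exists
  set t : ℂ := ((n : ℂ) + 1)⁻¹ with ht
  have hx : IsAlgebraic ℤ ((t ^ e)⁻¹) := by
    have : (t ^ e)⁻¹ = algebraMap ℤ ℂ (((n : ℤ) + 1) ^ e) := by
      rw [ht]
      simp
    rw [this]
    exact isAlgebraic_algebraMap _
  have hat : IsAlgebraic ℤ (a t) := alg_step hx a7 a1
  have hAt : IsAlgebraic ℤ (A t) := alg_step hx a8 a2
  have hDt : IsAlgebraic ℤ (D t) := alg_step hx a9 a3
  have hαt : IsAlgebraic ℤ (α t) := by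
    rw [a4]
    exact ((isAlgebraic_intCast M).mul hat).sub ((isAlgebraic_intCast L).mul hx)
  have hβt : IsAlgebraic ℤ (exp (α t)) := by
    rw [a6]
    rw [alg_iff] at hAt hDt ⊢
    exact (alg_zpow hDt M).mul (alg_zpow hAt (-L))
  exact a5 (hl hαt hβt)

lemma ord_zero {𝓕 : Filter ℂ} (h : Str 𝓕) {e : ℕ} (he : 0 < e) {A g₂ : ℂ → ℂ} {n₂ : ℤ}
    (hg₂ : AnalyticAt ℂ g₂ 0) (hg₂0 : g₂ 0 ≠ 0)
    (hA2 : ∀ᶠ t in 𝓝[≠] (0 : ℂ), A t = t ^ n₂ * g₂ t) {B : ℝ}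
    (hB : ∀ᶠ s in 𝓕, |Real.log ‖A (tt e s)‖| ≤ B) : n₂ = 0 := by
  have := h.ne
  by_contra hn
  have he' : (0 : ℝ) < e := by exact_mod_cast he
  have h1 : Tendsto (fun s => Real.log ‖g₂ (tt e s)‖) 𝓕 (𝓝 (Real.log ‖g₂ 0‖)) :=
    ((h.lim he hg₂).norm).log (norm_pos_iff.2 hg₂0).ne'
  obtain ⟨s, a1, a2, a3, a4, a5⟩ := (hB.and (((h.zero he).eventually hA2).and
    ((h1.abs.eventually_lt_const (lt_add_one _)).and (((h.lim he hg₂).eventually_ne hg₂0).and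
      (h.re.eventually_gt_atTop (e * (|B| + (|Real.log ‖g₂ 0‖| + 1)))))))).exists
  have hs : 0 < s.re := by
    have : 0 ≤ e * (|B| + (|Real.log ‖g₂ 0‖| + 1)) := by positivity
    linarith
  have ht : ‖tt e s‖ ≠ 0 := (norm_pos_iff.2 (tt_ne e s)).ne'
  rw [a2, norm_mul, norm_zpow, Real.log_mul (zpow_ne_zero _ ht) (norm_pos_iff.2 a4).ne',
    Real.log_zpow, norm_tt, Real.log_exp] at a1
  have h2 : |(n₂ : ℝ)| * (s.re / e) ≤ B + |Real.log ‖g₂ (tt e s)‖| := by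
    have h3 : |(n₂ : ℝ) * -(s.re / e)| = |(n₂ : ℝ)| * (s.re / e) := by
      rw [abs_mul, abs_neg, abs_of_pos (by positivity : 0 < s.re / e)]
    rw [← h3]
    have h4 := abs_sub_abs_le_abs_sub ((n₂ : ℝ) * -(s.re / e)) (-(Real.log ‖g₂ (tt e s)‖))
    rw [sub_neg_eq_add, abs_neg] at h4
    linarith
  have h5 : (1 : ℝ) ≤ |(n₂ : ℝ)| := by
    have : (1 : ℤ) ≤ |n₂| := Int.one_le_abs hn
    exact_mod_cast this
  have h6 : s.re / e ≤ |(n₂ : ℝ)| * (s.re / e) := le_mul_of_one_le_left (by positivity) h5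
  have h7 : |B| + (|Real.log ‖g₂ 0‖| + 1) < s.re / e := by
    rw [lt_div_iff₀ he']
    linarith
  have h8 := le_abs_self B
  linarith

lemma im_div_le {x y : ℂ} {B : ℝ} (hx0 : 0 < ‖x‖) (hx : |x.re| ≤ B) (hy : |y.re| ≤ B)
    (hxy : ‖y‖ ≤ ‖x‖) : |(y / x).im| ≤ 2 * B / ‖x‖ := by
  have hB : 0 ≤ B := (abs_nonneg _).trans hx
  rw [div_im, normSq_eq_norm_sq]
  have h1 : |y.im * x.re / ‖x‖ ^ 2| ≤ B / ‖x‖ := by
    rw [abs_div, abs_mul, abs_of_pos (pow_pos hx0 2), div_le_div_iff₀ (pow_pos hx0 2) hx0]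
    have h2 := abs_im_le_norm y
    calc |y.im| * |x.re| * ‖x‖ ≤ ‖x‖ * B * ‖x‖ := by
          gcongr
          exact h2.trans hxy
      _ = B * ‖x‖ ^ 2 := by ring
  have h3 : |y.re * x.im / ‖x‖ ^ 2| ≤ B / ‖x‖ := by
    rw [abs_div, abs_mul, abs_of_pos (pow_pos hx0 2), div_le_div_iff₀ (pow_pos hx0 2) hx0]
    have h2 := abs_im_le_norm x
    calc |y.re| * |x.im| * ‖x‖ ≤ B * ‖x‖ * ‖x‖ := by gcongr
      _ = B * ‖x‖ ^ 2 := by ring
  calc |y.im * x.re / ‖x‖ ^ 2 - y.re * x.im / ‖x‖ ^ 2|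
      ≤ |y.im * x.re / ‖x‖ ^ 2| + |y.re * x.im / ‖x‖ ^ 2| := abs_sub _ _
    _ ≤ B / ‖x‖ + B / ‖x‖ := add_le_add h1 h3
    _ = 2 * B / ‖x‖ := by ring

lemma alg_norm_sq {x : ℂ} (hx : IsAlgebraic ℚ x) (h0 : x ≠ 0) :
    IsAlgebraic ℚ (exp ((2 * Real.log ‖x‖ : ℝ) : ℂ)) := by
  have h1 : exp ((2 * Real.log ‖x‖ : ℝ) : ℂ) = x * conj x := by
    rw [← ofReal_exp, two_mul, Real.exp_add, Real.exp_log (norm_pos_iff.2 h0), mul_conj,
      normSq_eq_norm_sq, pow_two]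
  rw [h1]
  exact hx.mul (alg_conj hx)

/-- Baker's theorem for two real logarithms -/
lemma baker2 {l₁ l₂ κ c : ℂ} (h1 : IsAlgebraic ℚ (exp l₁)) (h2 : IsAlgebraic ℚ (exp l₂))
    (hκ : IsAlgebraic ℚ κ) (hc : IsAlgebraic ℚ c) (h : l₂ = κ + c * l₁) :
    ∃ M L : ℤ, ¬ (M = 0 ∧ L = 0) ∧ (M : ℂ) * l₂ - L * l₁ = 0 := by
  have hdep : ¬ LinearIndependent ℚ ![l₁, l₂] := by
    intro hli
    have h3 := Pool.Agent.H297R2.baker_inhom ![l₁, l₂] (by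
      intro i
      fin_cases i
      · exact h1
      · exact h2) hli κ hκ ![c, -1] (by
      intro i
      fin_cases i
      · exact hc
      · exact isAlgebraic_one.neg) (by
      rw [Fin.sum_univ_two]
      simp only [Matrix.cons_val_zero, Matrix.cons_val_one]
      rw [h]
      ring)
    have h4 := h3.2 1
    simp at h4
  rw [LinearIndependent.pair_iff] at hdep
  push Not at hdep
  obtain ⟨s, t, hst, hne⟩ := hdep
  refine ⟨t.num * s.den, -(s.num * t.den), ?_, ?_⟩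
  · rintro ⟨h5, h6⟩
    have hsd : (s.den : ℤ) ≠ 0 := by exact_mod_cast s.den_nz
    have htd : (t.den : ℤ) ≠ 0 := by exact_mod_cast t.den_nz
    have h7 : t.num = 0 := (mul_eq_zero.1 h5).resolve_right hsd
    have h8 : s.num = 0 := (mul_eq_zero.1 (neg_eq_zero.1 h6)).resolve_right htd
    exact hne (Rat.num_eq_zero.1 h8) (Rat.num_eq_zero.1 h7)
  · rw [Rat.smul_def, Rat.smul_def] at hst
    have hsd : (s.den : ℂ) ≠ 0 := by exact_mod_cast s.den_nz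
    have htd : (t.den : ℂ) ≠ 0 := by exact_mod_cast t.den_nz
    rw [Rat.cast_def s, Rat.cast_def t] at hst
    field_simp at hst
    push_cast
    linear_combination hst

lemma comp_ne {P : ℤ[X][Y]} (hP : P ≠ 0) : P.comp (C X * Y) ≠ 0 := by
  intro h0
  have hdeg : (C X * Y : ℤ[X][Y]).natDegree = 1 := natDegree_C_mul_X _ X_ne_zero
  have h1 := leadingCoeff_comp (p := P) (q := (C X * Y : ℤ[X][Y])) (by
    rw [hdeg]
    exact one_ne_zero)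
  rw [h0, leadingCoeff_zero] at h1
  have h2 : (C X * Y : ℤ[X][Y]).leadingCoeff ≠ 0 := by
    intro h3
    rw [leadingCoeff_eq_zero] at h3
    rw [h3, natDegree_zero] at hdeg
    exact zero_ne_one hdeg
  exact mul_ne_zero (leadingCoeff_ne_zero.2 hP) (pow_ne_zero _ h2) h1.symm

lemma comp_ev (P : ℤ[X][Y]) (x w : ℂ) : evZ (P.comp (C X * Y)) x w = evZ P x (x * w) := by
  have hq : aevalAeval x w (C X * Y : ℤ[X][Y]) = x * w := by
    rw [map_mul, aevalAeval_C, aevalAeval_Y, aeval_X]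
  rw [evZ_hom, evZ_hom, aa_eval₂, eval₂_comp, ← aa_eval₂ (C X * Y), hq, ← aa_eval₂]

end Pool.Agent.H489.EX
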