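import Pool.Agent.H489.EX.J

/-!
Counterexamples to Schanuel's conjecture along an ultrafilter: the real parts tend to zero.
-/

open Complex Filter Topology Polynomial ComplexConjugate
open scoped Polynomial.Bivariate

namespace Pool.Agent.H489.EX

open Pool.Agent.H489.CU

/-- along an ultrafilter the real parts tend to zero -/
theorem mainC (U : Ultrafilter ℂ) (h : Str (U : Filter ℂ)) {P Q R : ℤ[X][Y]}
    (hP : P ≠ 0) (hQ : Q ≠ 0) (hR : R ≠ 0) {z : ℂ → ℂ}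
    (hP' : ∀ᶠ s in (U : Filter ℂ), evZ P (exp s) (z s) = 0)
    (hQ' : ∀ᶠ s in (U : Filter ℂ), evZ Q (exp s) (exp (exp s)) = 0)
    (hR' : ∀ᶠ s in (U : Filter ℂ), evZ R (exp s) (exp (z s)) = 0)
    (hle : ∀ᶠ s in (U : Filter ℂ), ‖z s‖ ≤ ‖exp s‖)
    (hind : ∀ᶠ s in (U : Filter ℂ), ∀ M L : ℤ, (M : ℂ) * z s - L * exp s = 0 → M = 0 ∧ L = 0) :
    Tendsto (fun s => (exp s).re) (U : Filter ℂ) (𝓝 0) ∧
      Tendsto (fun s => (z s).re) (U : Filter ℂ) (𝓝 0) := by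
  have hU := h.ne
  -- Puiseux
  have hinv : ∀ v : ℂ, ∀ᶠ t in 𝓝[≠] (0 : ℂ), t⁻¹ ≠ v := by
    intro v
    simpa using inv_ne one_pos v
  have hinvm : MeromorphicAt (fun t : ℂ => t⁻¹) 0 := analyticAt_id.meromorphicAt.inv
  have hexp1 : ∀ s : ℂ, (tt 1 s)⁻¹ = exp s := by
    intro s
    rw [exp_inv_pow one_pos, pow_one]
  obtain ⟨N₁, a₁, hN₁, ha₁, hz₁⟩ := pz U h one_pos hinvm hinv (w := z) (cplx_ne hP) (by
    filter_upwards [hP'] with s hs
    rw [hexp1]
    exact hs)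
  obtain ⟨N₂, A₂, hN₂, hA₂, hy₂⟩ := pz U h one_pos hinvm hinv (w := fun s => exp (exp s))
    (cplx_ne hQ) (by
    filter_upwards [hQ'] with s hs
    rw [hexp1]
    exact hs)
  obtain ⟨N₃, D₃, hN₃, hD₃, hw₃⟩ := pz U h one_pos hinvm hinv (w := fun s => exp (z s))
    (cplx_ne hR) (by
    filter_upwards [hR'] with s hs
    rw [hexp1]
    exact hs)
  rw [one_mul] at hz₁ hy₂ hw₃
  -- the common parameter
  obtain ⟨e, he_def⟩ : ∃ e, e = N₁ * N₃ * N₂ := ⟨_, rfl⟩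
  have he : 0 < e := by rw [he_def]; positivity
  have ht1 : ∀ s, (tt e s) ^ (N₃ * N₂) = tt N₁ s := fun s => by
    rw [he_def, mul_assoc, tt_mul_pow (by positivity)]
  have ht2 : ∀ s, (tt e s) ^ (N₁ * N₃) = tt N₂ s := fun s => by
    rw [he_def, mul_comm (N₁ * N₃), tt_mul_pow (by positivity)]
  have ht3 : ∀ s, (tt e s) ^ (N₁ * N₂) = tt N₃ s := fun s => by
    have h1 : e = N₃ * (N₁ * N₂) := by rw [he_def]; ring
    rw [h1, tt_mul_pow (by positivity)]
  have ha := mero_pow ha₁ (show 0 < N₃ * N₂ by positivity)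
  have hA := mero_pow hA₂ (show 0 < N₁ * N₃ by positivity)
  have hD := mero_pow hD₃ (show 0 < N₁ * N₂ by positivity)
  set a : ℂ → ℂ := fun t => a₁ (t ^ (N₃ * N₂)) with ha_def
  set A : ℂ → ℂ := fun t => A₂ (t ^ (N₁ * N₃)) with hA_def
  set D : ℂ → ℂ := fun t => D₃ (t ^ (N₁ * N₂)) with hD_def
  have hza : ∀ᶠ s in (U : Filter ℂ), z s = a (tt e s) := by
    filter_upwards [hz₁] with s hs
    rw [hs, ha_def]
    simp only
    rw [ht1]
  have hyA : ∀ᶠ s in (U : Filter ℂ), exp (exp s) = A (tt e s) := by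
    filter_upwards [hy₂] with s hs
    rw [hs, hA_def]
    simp only
    rw [ht2]
  have hzD : ∀ᶠ s in (U : Filter ℂ), exp (z s) = D (tt e s) := by
    filter_upwards [hw₃] with s hs
    rw [hs, hD_def]
    simp only
    rw [ht3]
  have hex : ∀ s, exp s = ((tt e s) ^ e)⁻¹ := fun s => exp_inv_pow he s
  have hxm : MeromorphicAt (fun t : ℂ => (t ^ e)⁻¹) 0 :=
    (analyticAt_id.pow e).meromorphicAt.inv
  -- representations
  have hA0 : ∀ᶠ s in (U : Filter ℂ), A (tt e s) ≠ 0 := by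
    filter_upwards [hyA] with s b1
    rw [← b1]
    exact exp_ne_zero _
  have hD0 : ∀ᶠ s in (U : Filter ℂ), D (tt e s) ≠ 0 := by
    filter_upwards [hzD] with s b1
    rw [← b1]
    exact exp_ne_zero _
  have ha0 : ∀ᶠ s in (U : Filter ℂ), a (tt e s) ≠ 0 := by
    filter_upwards [hza, hind] with s b1 b2 b3
    rw [← b1] at b3
    have := (b2 1 0 (by rw [b3]; push_cast; ring)).1
    exact one_ne_zero this
  obtain ⟨n₂, g₂, hg₂, hg₂0, hA2⟩ := mero_rep h he hA hA0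
  obtain ⟨n₃, g₃, hg₃, hg₃0, hD3⟩ := mero_rep h he hD hD0
  obtain ⟨n₁, g₁, hg₁, hg₁0, ha2⟩ := mero_rep h he ha ha0
  have hreA : ∀ᶠ s in (U : Filter ℂ), (exp s).re = Real.log ‖A (tt e s)‖ := by
    filter_upwards [hyA] with s b1
    rw [← b1, norm_exp, Real.log_exp]
  have hreD : ∀ᶠ s in (U : Filter ℂ), (z s).re = Real.log ‖D (tt e s)‖ := by
    filter_upwards [hzD] with s b1
    rw [← b1, norm_exp, Real.log_exp]
  have hPt : ∀ᶠ t in 𝓝[≠] (0 : ℂ), evZ P ((t ^ e)⁻¹) (a t) = 0 := by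
    refine mero_freq (mero_evZ P hxm ha) ((h.zero he).frequently (Eventually.frequently ?_))
    filter_upwards [hP', hza] with s b1 b2
    rw [← hex s, ← b2]
    exact b1
  have hQt : ∀ᶠ t in 𝓝[≠] (0 : ℂ), evZ Q ((t ^ e)⁻¹) (A t) = 0 := by
    refine mero_freq (mero_evZ Q hxm hA) ((h.zero he).frequently (Eventually.frequently ?_))
    filter_upwards [hQ', hyA] with s b1 b2
    rw [← hex s, ← b2]
    exact b1
  have hRt : ∀ᶠ t in 𝓝[≠] (0 : ℂ), evZ R ((t ^ e)⁻¹) (D t) = 0 := by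
    refine mero_freq (mero_evZ R hxm hD) ((h.zero he).frequently (Eventually.frequently ?_))
    filter_upwards [hR', hzD] with s b1 b2
    rw [← hex s, ← b2]
    exact b1
  -- combinations
  have hcomb : ∀ M L : ℤ, ¬ (M = 0 ∧ L = 0) → ∀ β : ℂ → ℂ, AnalyticAt ℂ β 0 →
      (∀ᶠ t in 𝓝[≠] (0 : ℂ), β t = D t ^ M * A t ^ (-L)) →
      ∃ (p : ℕ) (g : ℂ → ℂ), 0 < p ∧ AnalyticAt ℂ g 0 ∧ g 0 ≠ 0 ∧
        (∀ᶠ t in 𝓝[≠] (0 : ℂ), M * a t - L * (t ^ e)⁻¹ = (t ^ p)⁻¹ * g t) ∧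
        (∀ᶠ s in (U : Filter ℂ), exp (((tt e s) ^ p)⁻¹ * g (tt e s)) = β (tt e s)) := by
    intro M L hML β hβa hβt
    obtain ⟨α, hα⟩ : ∃ α : ℂ → ℂ, α = fun t => M * a t - L * (t ^ e)⁻¹ := ⟨_, rfl⟩
    have hαm : MeromorphicAt α 0 := by
      rw [hα]
      exact ((MeromorphicAt.const _ _).mul ha).sub ((MeromorphicAt.const _ _).mul hxm)
    have hαs : ∀ᶠ s in (U : Filter ℂ), α (tt e s) = M * z s - L * exp s := by
      filter_upwards [hza] with s b1
      rw [hα, b1, hex s]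
    have hα0 : ∀ᶠ s in (U : Filter ℂ), α (tt e s) ≠ 0 := by
      filter_upwards [hαs, hind] with s b1 b2 b3
      rw [b1] at b3
      exact hML (b2 M L b3)
    obtain ⟨n, g, hg, hg0, hag⟩ := mero_rep h he hαm hα0
    have hβs : ∀ᶠ s in (U : Filter ℂ), exp (α (tt e s)) = β (tt e s) := by
      filter_upwards [hαs, (h.zero he).eventually hβt, hyA, hzD] with s b1 b2 b3 b4
      rw [b1, b2, ← b3, ← b4, exp_sub, ← exp_int_mul, ← exp_int_mul, Int.cast_neg, neg_mul,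
        exp_neg, div_eq_mul_inv]
    rcases lt_or_ge n 0 with hn | hn
    · obtain ⟨p, hpn⟩ : ∃ p : ℕ, n = -(p : ℤ) := ⟨n.natAbs, by omega⟩
      refine ⟨p, g, by omega, hg, hg0, ?_, ?_⟩
      · filter_upwards [hag] with t b1
        rw [hα, hpn, zpow_neg, zpow_natCast] at b1
        exact b1
      · filter_upwards [hβs, (h.zero he).eventually hag] with s b1 b2
        rw [← b1, b2, hpn, zpow_neg, zpow_natCast]
    · exfalso
      obtain ⟨m, hm⟩ := Int.eq_ofNat_of_zero_le hn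
      have h1 : AnalyticAt ℂ (fun t : ℂ => exp (t ^ m * g t) - β t) 0 :=
        (((analyticAt_id.pow m).mul hg).cexp).sub hβa
      have h2 : ∀ᶠ t in 𝓝[≠] (0 : ℂ), exp (t ^ m * g t) - β t = 0 := by
        refine mero_freq h1.meromorphicAt ?_
        refine (h.zero he).frequently (Eventually.frequently ?_)
        filter_upwards [hβs, (h.zero he).eventually hag] with s b1 b2
        rw [← b1, b2, hm, zpow_natCast, sub_self]
      refine lemB' he hP hQ hR (A := A) (D := D) hPt hQt hRt (M := M) (L := L) (α := α) ?_ ?_ ?_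
      · exact Eventually.of_forall fun t => by rw [hα]
      · filter_upwards [hag, self_mem_nhdsWithin,
          nhdsWithin_le_nhds (hg.continuousAt.eventually_ne hg0)] with t b1 b2 b3
        rw [b1]
        exact mul_ne_zero (zpow_ne_zero _ b2) b3
      · filter_upwards [h2, hag, hβt] with t b1 b2 b3
        rw [b2, hm, zpow_natCast, sub_eq_zero.1 b1, b3]
  -- the exponentials are bounded
  have hzero : n₂ = 0 ∧ n₃ = 0 := by
    by_contra hne
    have hne' : ¬ (n₂ = 0 ∧ n₃ = 0) := hne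
    obtain ⟨β, hβ⟩ : ∃ β : ℂ → ℂ, β = fun t => g₃ t ^ n₂ * g₂ t ^ (-n₃) := ⟨_, rfl⟩
    have hβa : AnalyticAt ℂ β 0 := by
      rw [hβ]
      exact (hg₃.fun_zpow hg₃0).mul (hg₂.fun_zpow hg₂0)
    have hβ0 : β 0 ≠ 0 := by
      rw [hβ]
      exact mul_ne_zero (zpow_ne_zero _ hg₃0) (zpow_ne_zero _ hg₂0)
    have hβt : ∀ᶠ t in 𝓝[≠] (0 : ℂ), β t = D t ^ n₂ * A t ^ (-n₃) := by
      filter_upwards [hA2, hD3, self_mem_nhdsWithin] with t b1 b2 b3
      have b3' : t ≠ 0 := b3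
      rw [b1, b2, hβ]
      simp only
      rw [mul_zpow, mul_zpow, ← zpow_mul, ← zpow_mul]
      have h1 : t ^ (n₃ * n₂) * t ^ (n₂ * (-n₃)) = 1 := by
        rw [← zpow_add₀ b3']
        have : n₃ * n₂ + n₂ * -n₃ = 0 := by ring
        rw [this, zpow_zero]
      linear_combination (-(g₃ t ^ n₂ * g₂ t ^ (-n₃))) * h1
    obtain ⟨p, g, hp, hg, hg0, -, hv⟩ := hcomb n₂ n₃ hne' β hβa hβt
    obtain ⟨C, -, hC⟩ := mero_log_bd h he hA hA0
    obtain ⟨C', -, hC'⟩ := mero_log_bd h he hD hD0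
    obtain ⟨B, hB⟩ := lemA U h he hp hg hg0 hβa hβ0 hv hxm (C := C) (by
      filter_upwards [hC, hreA] with s b1 b2
      rw [← hex s, b2]
      exact b1)
    obtain ⟨B', hB'⟩ := lemA U h he hp hg hg0 hβa hβ0 hv ha (C := C') (by
      filter_upwards [hC', hreD, hza] with s b1 b2 b3
      rw [← b3, b2]
      exact b1)
    apply hne
    refine ⟨ord_zero h he hg₂ hg₂0 hA2 (B := B) ?_, ord_zero h he hg₃ hg₃0 hD3 (B := B') ?_⟩
    · filter_upwards [hB, hreA] with s b1 b2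
      rw [← b2, hex s]
      exact b1
    · filter_upwards [hB', hreD, hza] with s b1 b2 b3
      rw [← b2, b3]
      exact b1
  obtain ⟨hn₂, hn₃⟩ := hzero
  subst hn₂ hn₃
  have hA2' : ∀ᶠ t in 𝓝[≠] (0 : ℂ), A t = g₂ t := hA2.mono fun t ht => by
    rw [ht, zpow_zero, one_mul]
  have hD3' : ∀ᶠ t in 𝓝[≠] (0 : ℂ), D t = g₃ t := hD3.mono fun t ht => by
    rw [ht, zpow_zero, one_mul]
  have hA2s : ∀ᶠ s in (U : Filter ℂ), A (tt e s) = g₂ (tt e s) := (h.zero he).eventually hA2'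
  have hD3s : ∀ᶠ s in (U : Filter ℂ), D (tt e s) = g₃ (tt e s) := (h.zero he).eventually hD3'
  -- the limits of the real parts
  have hlx : Tendsto (fun s => (exp s).re) (U : Filter ℂ) (𝓝 (Real.log ‖g₂ 0‖)) := by
    refine (((h.lim he hg₂).norm).log (norm_pos_iff.2 hg₂0).ne').congr' ?_
    filter_upwards [hreA, hA2s] with s b1 b2
    rw [b1, b2]
  have hly : Tendsto (fun s => (z s).re) (U : Filter ℂ) (𝓝 (Real.log ‖g₃ 0‖)) := by
    refine (((h.lim he hg₃).norm).log (norm_pos_iff.2 hg₃0).ne').congr' ?_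
    filter_upwards [hreD, hD3s] with s b1 b2
    rw [b1, b2]
  -- the quotient `z / exp s`
  have hord : 0 ≤ n₁ + e := by
    by_contra hneg
    push Not at hneg
    have h1 := (h.lim he hg₁).norm
    have h2 := (norm_pos_iff.2 hg₁0)
    obtain ⟨s, b1, b2, b3, b4, b5⟩ := (hle.and (hza.and (((h.zero he).eventually ha2).and
      ((h1.eventually_const_lt (show ‖g₁ 0‖ / 2 < ‖g₁ 0‖ by linarith)).and
      ((h.norm0 he).eventually_lt_const (show 0 < min 1 (‖g₁ 0‖ / 2) by positivity)))))).exists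
    have ht : 0 < ‖tt e s‖ := norm_pos_iff.2 (tt_ne e s)
    rw [b2, b3, hex s, norm_mul, norm_zpow, norm_inv, norm_pow] at b1
    have h3 : ‖tt e s‖ ^ (n₁ + e) * ‖g₁ (tt e s)‖ ≤ 1 := by
      rw [zpow_add₀ ht.ne', zpow_natCast]
      have h4 := mul_le_mul_of_nonneg_right b1 (pow_nonneg ht.le e)
      rw [inv_mul_cancel₀ (pow_pos ht e).ne'] at h4
      linarith
    have h5 : ‖tt e s‖⁻¹ ≤ ‖tt e s‖ ^ (n₁ + e) := by
      rw [← zpow_neg_one]
      exact zpow_le_zpow_right_of_le_one₀ ht (b5.le.trans (min_le_left _ _)) (by omega)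
    have h6 : ‖tt e s‖⁻¹ * (‖g₁ 0‖ / 2) < 1 := by
      calc ‖tt e s‖⁻¹ * (‖g₁ 0‖ / 2) < ‖tt e s‖⁻¹ * ‖g₁ (tt e s)‖ := by gcongr
        _ ≤ ‖tt e s‖ ^ (n₁ + e) * ‖g₁ (tt e s)‖ := by gcongr
        _ ≤ 1 := h3
    rw [inv_mul_lt_iff₀ ht, mul_one] at h6
    linarith [b5.trans_le (min_le_right (1 : ℝ) (‖g₁ 0‖ / 2))]
  obtain ⟨m₁, hm₁⟩ := Int.eq_ofNat_of_zero_le hord
  obtain ⟨w, hw⟩ : ∃ w : ℂ → ℂ, w = fun t => t ^ m₁ * g₁ t := ⟨_, rfl⟩
  have hwa : AnalyticAt ℂ w 0 := by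
    rw [hw]
    exact (analyticAt_id.pow m₁).mul hg₁
  have haw : ∀ᶠ t in 𝓝[≠] (0 : ℂ), a t = (t ^ e)⁻¹ * w t := by
    filter_upwards [ha2, self_mem_nhdsWithin] with t b1 b2
    have b2' : t ≠ 0 := b2
    have h1 : n₁ = (m₁ : ℤ) - e := by omega
    rw [b1, h1, hw, zpow_sub₀ b2', zpow_natCast, zpow_natCast]
    field_simp
  have haws : ∀ᶠ s in (U : Filter ℂ), z s = ((tt e s) ^ e)⁻¹ * w (tt e s) := by
    filter_upwards [hza, (h.zero he).eventually haw] with s b1 b2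
    rw [b1, b2]
  -- algebraic coefficients
  have hwA : AI w := by
    refine of_algZ he (comp_ne hP) hwa ?_
    filter_upwards [hPt, haw] with t b1 b2
    rw [comp_ev, ← b2]
    exact b1
  have hg₂A : AI g₂ := by
    refine of_algZ he hQ hg₂ ?_
    filter_upwards [hQt, hA2'] with t b1 b2
    rw [← b2]
    exact b1
  have hg₃A : AI g₃ := by
    refine of_algZ he hR hg₃ ?_
    filter_upwards [hRt, hD3'] with t b1 b2
    rw [← b2]
    exact b1
  -- bounds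
  obtain ⟨B, hBx, hBy⟩ : ∃ B : ℝ, (∀ᶠ s in (U : Filter ℂ), |(exp s).re| ≤ B) ∧
      (∀ᶠ s in (U : Filter ℂ), |(z s).re| ≤ B) := by
    refine ⟨max (|Real.log ‖g₂ 0‖| + 1) (|Real.log ‖g₃ 0‖| + 1), ?_, ?_⟩
    · filter_upwards [hlx.abs.eventually_lt_const (lt_add_one _)] with s b1
      exact b1.le.trans (le_max_left _ _)
    · filter_upwards [hly.abs.eventually_lt_const (lt_add_one _)] with s b1
      exact b1.le.trans (le_max_right _ _)
  -- the slope is real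
  have hwr : (w 0).im = 0 := by
    have h1 : Tendsto (fun s => (w (tt e s)).im) (U : Filter ℂ) (𝓝 (w 0).im) :=
      (continuous_im.tendsto _).comp (h.lim he hwa)
    have h2 : Tendsto (fun s : ℂ => 2 * B / ‖exp s‖) (U : Filter ℂ) (𝓝 0) :=
      (exp_norm_tend h).const_div_atTop _
    have h3 : Tendsto (fun s => |(w (tt e s)).im|) (U : Filter ℂ) (𝓝 0) := by
      refine squeeze_zero' (Eventually.of_forall fun _ => abs_nonneg _) ?_ h2
      filter_upwards [haws, hBx, hBy, hle] with s b1 b2 b3 b4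
      have h4 : w (tt e s) = z s / exp s := by
        rw [b1, hex s]
        have := tt_ne e s
        field_simp
      rw [h4]
      exact im_div_le (norm_pos_iff.2 (exp_ne_zero _)) b2 b3 b4
    have h4 := tendsto_nhds_unique h1.abs h3
    exact abs_eq_zero.1 h4
  -- the linear relation
  obtain ⟨κ₀, hκ₀, hlin⟩ := lemL U h he hg₂ hg₂0 (by
    filter_upwards [hyA, hA2s] with s b1 b2
    rw [← hex s, b1, b2]) hwA hwr (B := B) (by
    filter_upwards [haws, hBy] with s b1 b2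
    rw [← b1]
    exact b2)
  have hly2 : Tendsto (fun s => ((2 * (((tt e s) ^ e)⁻¹ * w (tt e s)).re : ℝ) : ℂ))
      (U : Filter ℂ) (𝓝 ((2 * Real.log ‖g₃ 0‖ : ℝ) : ℂ)) := by
    refine ((continuous_ofReal.tendsto _).comp (hly.const_mul 2)).congr' ?_
    filter_upwards [haws] with s b1
    simp only [Function.comp]
    rw [b1]
  have hrel := tendsto_nhds_unique hly2 hlin
  have hb1 := alg_norm_sq (hg₂A 0).alg hg₂0
  have hb2 := alg_norm_sq (hg₃A 0).alg hg₃0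
  obtain ⟨M, L, hML, hMLe⟩ := baker2 hb1 hb2 hκ₀ (hwA 0).alg hrel
  -- the combination
  obtain ⟨β, hβ⟩ : ∃ β : ℂ → ℂ, β = fun t => g₃ t ^ M * g₂ t ^ (-L) := ⟨_, rfl⟩
  have hβA : AI β := by
    rw [hβ]
    exact (hg₃A.zpow hg₃0 M).mul (hg₂A.zpow hg₂0 (-L))
  have hβt : ∀ᶠ t in 𝓝[≠] (0 : ℂ), β t = D t ^ M * A t ^ (-L) := by
    filter_upwards [hA2', hD3'] with t b1 b2
    rw [b1, b2, hβ]
  have hβ1 : ‖β 0‖ = 1 := by
    have h1 : (M : ℝ) * (2 * Real.log ‖g₃ 0‖) - L * (2 * Real.log ‖g₂ 0‖) = 0 := by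
      exact_mod_cast hMLe
    have h2 : ∀ {x : ℂ}, x ≠ 0 → ∀ k : ℤ, ‖x‖ ^ k = Real.exp (k * Real.log ‖x‖) := by
      intro x hx k
      rw [← Real.rpow_intCast, Real.rpow_def_of_pos (norm_pos_iff.2 hx), mul_comm]
    rw [hβ]
    simp only
    rw [norm_mul, norm_zpow, norm_zpow, h2 hg₃0, h2 hg₂0, ← Real.exp_add, Real.exp_eq_one_iff]
    push_cast
    linarith
  obtain ⟨p, g, hp, hg, hg0, hgt, hv⟩ := hcomb M L hML β hβA.an hβt
  -- algebraic coefficients of the combination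
  have hgA : AI g := by
    have h1 : AI (fun t => (M : ℂ) * w t - L) :=
      ((AI.const (isAlgebraic_intCast (R := ℚ) M)).mul hwA).sub
        (AI.const (isAlgebraic_intCast (R := ℚ) L))
    have h2 : AI (fun t => t ^ p * ((M : ℂ) * w t - L)) := (AI.id.pow p).mul h1
    refine AI.div_pow (k := e) h2 hg ?_
    have h3 : AnalyticAt ℂ (fun t => t ^ p * ((M : ℂ) * w t - L)) 0 := h2.an
    have h4 : AnalyticAt ℂ (fun t => t ^ e * g t) 0 := (analyticAt_id.pow e).mul hg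
    refine (h3.frequently_eq_iff_eventually_eq h4).1 (Eventually.frequently ?_)
    filter_upwards [hgt, haw, self_mem_nhdsWithin] with t b1 b2 b3
    have b3' : t ≠ 0 := b3
    rw [b2] at b1
    have h5 : t ^ p ≠ 0 := pow_ne_zero _ b3'
    have h6 : t ^ e ≠ 0 := pow_ne_zero _ b3'
    field_simp at b1
    linear_combination b1
  have hone : AI (fun _ => (1 : ℂ)) := AI.const isAlgebraic_one
  obtain ⟨κ₁, hκ₁, hl₁⟩ := lemP U h he hp hgA hg0 hβA hβ1 hv (q := e) hone (B := B) (by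
    filter_upwards [hBx] with s b1
    rw [mul_one, ← hex s]
    exact b1)
  obtain ⟨κ₂, hκ₂, hl₂⟩ := lemP U h he hp hgA hg0 hβA hβ1 hv (q := e) hwA (B := B) (by
    filter_upwards [haws, hBy] with s b1 b2
    rw [← b1]
    exact b2)
  have hlx2 : Tendsto (fun s => ((2 * (((tt e s) ^ e)⁻¹ * 1).re : ℝ) : ℂ))
      (U : Filter ℂ) (𝓝 ((2 * Real.log ‖g₂ 0‖ : ℝ) : ℂ)) := by
    refine ((continuous_ofReal.tendsto _).comp (hlx.const_mul 2)).congr' ?_
    refine Eventually.of_forall fun s => ?_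
    simp only [Function.comp]
    rw [mul_one, ← hex s]
  have e1 := tendsto_nhds_unique hlx2 hl₁
  have e2 := tendsto_nhds_unique hly2 hl₂
  have fin : ∀ {l : ℝ}, IsAlgebraic ℚ ((2 * l : ℝ) : ℂ) →
      IsAlgebraic ℚ (exp ((2 * l : ℝ) : ℂ)) → l = 0 := by
    intro l hl1 hl2
    have := hl (alg_iff.2 hl1) (alg_iff.2 hl2)
    have h3 : 2 * l = 0 := by exact_mod_cast this
    linarith
  have f1 : Real.log ‖g₂ 0‖ = 0 := fin (by rw [e1]; exact hκ₁) hb1
  have f2 : Real.log ‖g₃ 0‖ = 0 := fin (by rw [e2]; exact hκ₂) hb2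
  rw [f1] at hlx
  rw [f2] at hly
  exact ⟨hlx, hly⟩

end Pool.Agent.H489.EX
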