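import Pool.Agent.H489.EX.M

/-!
Counterexamples to Schanuel's conjecture on curves: the real parts tend to zero.
-/

open Complex Filter Topology Polynomial
open scoped Polynomial.Bivariate

namespace Pool.Agent.H489.EX

open Pool.Agent.H489.CU

/-- the pairs, ordered by size -/
theorem pair_le {P Q R C : ℤ[X][Y]} (hP : P ≠ 0) (hQ : Q ≠ 0) (hR : R ≠ 0) (hC : C ≠ 0)
    {δ : ℝ} (hδ : 0 < δ) :
    {x : ℂ × ℂ | evZ P x.1 x.2 = 0 ∧ evZ Q x.1 (exp x.1) = 0 ∧ evZ R x.1 (exp x.2) = 0 ∧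
      evZ C (exp x.1) x.2 = 0 ∧ (∀ M L : ℤ, (M : ℂ) * x.2 - L * x.1 = 0 → M = 0 ∧ L = 0) ∧
      ‖x.2‖ ≤ ‖x.1‖ ∧ (δ ≤ |x.1.re| ∨ δ ≤ |x.2.re|)}.Finite := by
  by_contra hinf
  set T := {x : ℂ × ℂ | evZ P x.1 x.2 = 0 ∧ evZ Q x.1 (exp x.1) = 0 ∧ evZ R x.1 (exp x.2) = 0 ∧
      evZ C (exp x.1) x.2 = 0 ∧ (∀ M L : ℤ, (M : ℂ) * x.2 - L * x.1 = 0 → M = 0 ∧ L = 0) ∧
      ‖x.2‖ ≤ ‖x.1‖ ∧ (δ ≤ |x.1.re| ∨ δ ≤ |x.2.re|)} with hT
  have hx0 : ∀ x ∈ T, x.1 ≠ 0 := by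
    intro x hx h0
    have h1 := (hx.2.2.2.2.1 0 1 (by rw [h0]; simp)).2
    exact one_ne_zero h1
  set S := Prod.fst '' T with hS
  have hSinf : S.Infinite := by
    intro hfin
    apply hinf
    have h1 : (⋃ y ∈ S, {x : ℂ × ℂ | x ∈ T ∧ x.1 = y}).Finite := by
      refine hfin.biUnion fun y hy => ?_
      obtain ⟨x₀, hx₀, rfl⟩ := hy
      have h2 : {w : ℂ | evZ P x₀.1 w = 0 ∧ evZ C (exp x₀.1) w = 0}.Finite := by
        by_cases halg : IsAlgebraic ℤ x₀.1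
        · exact (fin_y hC (fun h => hx0 x₀ hx₀ (hl halg h))).subset fun w hw => hw.2
        · exact (fin_y hP halg).subset fun w hw => hw.1
      refine ((Set.finite_singleton x₀.1).prod h2).subset ?_
      rintro ⟨u, v⟩ ⟨hx, hx1⟩
      simp only at hx1
      subst hx1
      exact ⟨rfl, hx.1, hx.2.2.2.1⟩
    refine h1.subset fun x hx => ?_
    simp only [Set.mem_iUnion]
    exact ⟨x.1, ⟨x, hx, rfl⟩, hx, rfl⟩
  have hex : ∀ y : ℂ, ∃ w : ℂ, y ∈ S → (y, w) ∈ T := by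
    intro y
    by_cases hy : y ∈ S
    · obtain ⟨x, hx, rfl⟩ := hy
      exact ⟨x.2, fun _ => hx⟩
    · exact ⟨0, fun h => absurd h hy⟩
  choose ζ hζ using hex
  have hne : (cofinite ⊓ 𝓟 S).NeBot := hSinf.cofinite_inf_principal_neBot
  set V : Ultrafilter ℂ := Ultrafilter.of (cofinite ⊓ 𝓟 S) with hV
  have hVle : (V : Filter ℂ) ≤ cofinite ⊓ 𝓟 S := Ultrafilter.of_le _
  have hVS : ∀ᶠ y in (V : Filter ℂ), y ∈ S := hVle.trans inf_le_right (mem_principal_self S)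
  have hVbig : ∀ B : ℝ, ∀ᶠ y in (V : Filter ℂ), B < ‖y‖ := by
    intro B
    have h1 : {y : ℂ | evZ Q y (exp y) = 0 ∧ ‖y‖ ≤ B}ᶜ ∈ (V : Filter ℂ) :=
      hVle.trans inf_le_left (zexp_finite hQ B).compl_mem_cofinite
    filter_upwards [h1, hVS] with y a1 a2
    by_contra hcon
    push Not at hcon
    apply a1
    obtain ⟨x, hx, rfl⟩ := a2
    exact ⟨hx.2.1, hcon⟩
  have hVtop : Tendsto (fun y : ℂ => ‖y‖) (V : Filter ℂ) atTop := by
    rw [tendsto_atTop]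
    intro B
    exact (hVbig B).mono fun y hy => hy.le
  set U : Ultrafilter ℂ := V.map log with hU
  have hUe : ∀ p : ℂ → Prop, (∀ᶠ s in (U : Filter ℂ), p s) ↔ ∀ᶠ y in (V : Filter ℂ), p (log y) := by
    intro p
    rw [hU, Ultrafilter.coe_map, eventually_map]
  have hstr : Str (U : Filter ℂ) := by
    refine ⟨inferInstance, ?_, ?_⟩
    · rw [hU, Ultrafilter.coe_map, tendsto_map'_iff]
      exact (Real.tendsto_log_atTop.comp hVtop).congr fun y => (log_re y).symm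
    · rw [hUe]
      refine Eventually.of_forall fun y => ?_
      rw [log_im]
      exact abs_arg_le_pi y
  have hV0 : ∀ᶠ y in (V : Filter ℂ), exp (log y) = y ∧ (y, ζ y) ∈ T := by
    filter_upwards [hVbig 0, hVS] with y a1 a2
    exact ⟨exp_log (norm_pos_iff.1 a1), hζ y a2⟩
  have hU0 : ∀ᶠ s in (U : Filter ℂ), (exp s, ζ (exp s)) ∈ T := by
    rw [hUe]
    filter_upwards [hV0] with y ⟨a1, a2⟩
    rw [a1]
    exact a2
  obtain ⟨h1, h2⟩ := mainC U hstr hP hQ hR (z := fun s => ζ (exp s))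
    (hU0.mono fun s hs => hs.1) (hU0.mono fun s hs => hs.2.1) (hU0.mono fun s hs => hs.2.2.1)
    (hU0.mono fun s hs => hs.2.2.2.2.2.1) (hU0.mono fun s hs => hs.2.2.2.2.1)
  have h3 := h1.abs
  have h4 := h2.abs
  rw [abs_zero] at h3 h4
  have hUn := hstr.ne
  obtain ⟨s, b1, b2, b3⟩ := (hU0.and ((h3.eventually_lt_const hδ).and
    (h4.eventually_lt_const hδ))).exists
  rcases b1.2.2.2.2.2.2 with h5 | h5
  · exact absurd b2 (not_lt.2 h5)
  · exact absurd b3 (not_lt.2 h5)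

/-- the pairs -/
theorem pair_all {P Q₁ Q₂ R₁ R₂ : ℤ[X][Y]} (hP : P ≠ 0) (hQ₁ : Q₁ ≠ 0) (hQ₂ : Q₂ ≠ 0)
    (hR₁ : R₁ ≠ 0) (hR₂ : R₂ ≠ 0) {δ : ℝ} (hδ : 0 < δ) :
    {x : ℂ × ℂ | evZ P x.1 x.2 = 0 ∧ evZ Q₁ x.1 (exp x.1) = 0 ∧ evZ Q₂ x.2 (exp x.2) = 0 ∧
      evZ R₁ x.1 (exp x.2) = 0 ∧ evZ R₂ (exp x.1) x.2 = 0 ∧
      (∀ M L : ℤ, (M : ℂ) * x.2 - L * x.1 = 0 → M = 0 ∧ L = 0) ∧
      (δ ≤ |x.1.re| ∨ δ ≤ |x.2.re|)}.Finite := by
  have hsw : ∀ {H : ℤ[X][Y]}, H ≠ 0 → Bivariate.swap H ≠ 0 := by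
    intro H hH h0
    apply hH
    rw [← Bivariate.swap_swap_apply H, h0, map_zero]
  have h1 := pair_le hP hQ₁ hR₁ hR₂ hδ
  have h2 := pair_le (hsw hP) hQ₂ (hsw hR₂) (hsw hR₁) hδ
  refine (h1.union (h2.image Prod.swap)).subset ?_
  rintro ⟨x, y⟩ ⟨e1, e2, e3, e4, e5, e6, e7⟩
  simp only at e1 e2 e3 e4 e5 e6 e7
  rcases le_total ‖y‖ ‖x‖ with hle | hle
  · left
    exact ⟨e1, e2, e4, e5, e6, hle, e7⟩
  · right
    refine ⟨(y, x), ⟨?_, e3, ?_, ?_, ?_, hle, e7.symm⟩, rfl⟩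
    · rw [evZ_swap]
      exact e1
    · rw [evZ_swap]
      exact e5
    · rw [evZ_swap]
      exact e4
    · intro M L hML
      have h3 := e6 L M (by
        simp only at hML
        linear_combination -hML)
      exact ⟨h3.2, h3.1⟩

/-- tuples -/
theorem tuple_all {ι : Type*} [Finite ι] [Nontrivial ι] (W : Set (ι ⊕ ι → ℂ))
    (hW : ∀ a b : ι ⊕ ι, a ≠ b → ∃ P : MvPolynomial (Fin 2) ℤ, P ≠ 0 ∧
      ∀ x ∈ W, MvPolynomial.aeval ![x a, x b] P = 0) {δ : ℝ} (hδ : 0 < δ) :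
    {z : ι → ℂ | LinearIndependent ℚ z ∧ Sum.elim z (fun i => exp (z i)) ∈ W ∧
      ∃ i, δ ≤ |(z i).re|}.Finite := by
  classical
  choose P₀ hP₀ hPW₀ using hW
  have hconv : ∀ (a b : ι ⊕ ι), ∃ P' : ℤ[X][Y], P' ≠ 0 ∧ (a ≠ b → ∀ x ∈ W,
      evZ P' (x a) (x b) = 0) := by
    intro a b
    by_cases hab : a = b
    · exact ⟨1, one_ne_zero, fun h => absurd hab h⟩
    · obtain ⟨P', h1, h2⟩ := mv_conv (hP₀ a b hab)
      refine ⟨P', h1, fun _ x hx => ?_⟩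
      rw [← h2]
      exact hPW₀ a b hab x hx
  choose P hP hPW using hconv
  choose nb hnb using fun i : ι => exists_ne i
  set T : ι → Set (ℂ × ℂ) := fun i => {x : ℂ × ℂ |
    evZ (P (Sum.inl i) (Sum.inl (nb i))) x.1 x.2 = 0 ∧
    evZ (P (Sum.inl i) (Sum.inr i)) x.1 (exp x.1) = 0 ∧
    evZ (P (Sum.inl (nb i)) (Sum.inr (nb i))) x.2 (exp x.2) = 0 ∧
    evZ (P (Sum.inl i) (Sum.inr (nb i))) x.1 (exp x.2) = 0 ∧
    evZ (P (Sum.inr i) (Sum.inl (nb i))) (exp x.1) x.2 = 0 ∧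
    (∀ M L : ℤ, (M : ℂ) * x.2 - L * x.1 = 0 → M = 0 ∧ L = 0) ∧
    (δ ≤ |x.1.re| ∨ δ ≤ |x.2.re|)} with hT
  have hTf : ∀ i, (T i).Finite := fun i =>
    pair_all (hP _ _) (hP _ _) (hP _ _) (hP _ _) (hP _ _) hδ
  -- the other coordinates
  set G : ι → ℂ → ι → Set ℂ := fun i y l => if l = i then {y} else
    if Transcendental ℤ y then {w | evZ (P (Sum.inl i) (Sum.inl l)) y w = 0} else
    if Transcendental ℤ (exp y) then {w | evZ (P (Sum.inr i) (Sum.inl l)) (exp y) w = 0}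
    else ∅ with hG
  have hGf : ∀ i y l, (G i y l).Finite := by
    intro i y l
    simp only [hG]
    split_ifs with h1 h2 h3
    · exact Set.finite_singleton _
    · exact fin_y (hP _ _) h2
    · exact fin_y (hP _ _) h3
    · exact Set.finite_empty
  have hfin : (⋃ i : ι, ⋃ x ∈ T i, Set.pi Set.univ (G i x.1)).Finite :=
    Set.finite_iUnion fun i =>
      (hTf i).biUnion fun x _ => Set.Finite.pi' (fun l => hGf i x.1 l) |>.subset (by
        intro z hz l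
        exact hz l (Set.mem_univ l))
  refine hfin.subset ?_
  rintro z ⟨hz, hzW, i, hi⟩
  have hrel : ∀ a b : ι ⊕ ι, a ≠ b → evZ (P a b) (Sum.elim z (fun i => exp (z i)) a)
      (Sum.elim z (fun i => exp (z i)) b) = 0 := fun a b hab => hPW a b hab _ hzW
  have hmem : (z i, z (nb i)) ∈ T i := by
    refine ⟨hrel (Sum.inl i) (Sum.inl (nb i)) (fun h => hnb i (Sum.inl_injective h).symm),
      hrel (Sum.inl i) (Sum.inr i) Sum.inl_ne_inr,
      hrel (Sum.inl (nb i)) (Sum.inr (nb i)) Sum.inl_ne_inr,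
      hrel (Sum.inl i) (Sum.inr (nb i)) Sum.inl_ne_inr,
      hrel (Sum.inr i) (Sum.inl (nb i)) Sum.inr_ne_inl, ?_, Or.inl hi⟩
    intro M L hML
    have hinj : Function.Injective ![nb i, i] := by
      intro a b hab
      fin_cases a <;> fin_cases b
      · rfl
      · exact absurd hab (hnb i)
      · exact absurd hab.symm (hnb i)
      · rfl
    have h1 := hz.comp ![nb i, i] hinj
    have h2 : z ∘ ![nb i, i] = ![z (nb i), z i] := by
      funext a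
      fin_cases a <;> rfl
    rw [h2, LinearIndependent.pair_iff] at h1
    simp only at hML
    have h3 := h1 (M : ℚ) (-(L : ℚ)) (by
      rw [Rat.smul_def, Rat.smul_def]
      push_cast
      linear_combination hML)
    have h4 : (M : ℚ) = 0 := h3.1
    have h5 : (L : ℚ) = 0 := neg_eq_zero.1 h3.2
    exact ⟨by exact_mod_cast h4, by exact_mod_cast h5⟩
  simp only [Set.mem_iUnion]
  refine ⟨i, (z i, z (nb i)), hmem, fun l _ => ?_⟩
  simp only [hG]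
  split_ifs with h1 h2 h3
  · rw [h1]
    rfl
  · exact hrel (Sum.inl i) (Sum.inl l) (fun h => h1 (Sum.inl_injective h).symm)
  · exact hrel (Sum.inr i) (Sum.inl l) Sum.inr_ne_inl
  · exact absurd (hl (not_not.1 h2) (not_not.1 h3)) (hz.ne_zero i)

end Pool.Agent.H489.EX
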