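import Pool.Agent.H489.EX.N

/-!
Counterexamples to Schanuel's conjecture on curves: bounded coordinates, and curves without unitary
points at infinity.
-/

open Complex Filter Topology Polynomial
open scoped Polynomial.Bivariate

namespace Pool.Agent.H489.EX

open Pool.Agent.H489.CU

/-- finitely many tuples with a bounded coordinate -/
theorem tuple_bdd {ι : Type*} [Finite ι] (W : Set (ι ⊕ ι → ℂ))
    (hW : ∀ a b : ι ⊕ ι, a ≠ b → ∃ P : MvPolynomial (Fin 2) ℤ, P ≠ 0 ∧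
      ∀ x ∈ W, MvPolynomial.aeval ![x a, x b] P = 0) (B : ℝ) :
    {z : ι → ℂ | LinearIndependent ℚ z ∧ Sum.elim z (fun i => exp (z i)) ∈ W ∧
      ∃ i, ‖z i‖ ≤ B}.Finite := by
  classical
  choose P₀ hP₀ hPW₀ using hW
  have hconv : ∀ (a b : ι ⊕ ι), ∃ P' : ℤ[X][Y], P' ≠ 0 ∧ (a ≠ b → ∀ x ∈ W,
      evZ P' (x a) (x b) = 0) := by
    intro a b
    by_cases hab : a = b
    · exact ⟨1, one_ne_zero, fun h => absurd hab h⟩
    · obtain ⟨P', h1, h2⟩ := mv_conv (hP₀ a b hab)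
      refine ⟨P', h1, fun _ x hx => ?_⟩
      rw [← h2]
      exact hPW₀ a b hab x hx
  choose P hP hPW using hconv
  -- the other coordinates
  set G : ι → ℂ → ι → Set ℂ := fun i y l => if l = i then {y} else
    if Transcendental ℤ y then {w | evZ (P (Sum.inl i) (Sum.inl l)) y w = 0} else
    if Transcendental ℤ (exp y) then {w | evZ (P (Sum.inr i) (Sum.inl l)) (exp y) w = 0}
    else ∅ with hG
  have hGf : ∀ i y l, (G i y l).Finite := by
    intro i y l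
    simp only [hG]
    split_ifs with h1 h2 h3
    · exact Set.finite_singleton _
    · exact fin_y (hP _ _) h2
    · exact fin_y (hP _ _) h3
    · exact Set.finite_empty
  have hfin : (⋃ i : ι, ⋃ y ∈ {y : ℂ | evZ (P (Sum.inl i) (Sum.inr i)) y (exp y) = 0 ∧ ‖y‖ ≤ B},
      Set.pi Set.univ (G i y)).Finite :=
    Set.finite_iUnion fun i =>
      (zexp_finite (hP _ _) B).biUnion fun y _ => Set.Finite.pi' (fun l => hGf i y l) |>.subset (by
        intro z hz l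
        exact hz l (Set.mem_univ l))
  refine hfin.subset ?_
  rintro z ⟨hz, hzW, i, hi⟩
  have hrel : ∀ a b : ι ⊕ ι, a ≠ b → evZ (P a b) (Sum.elim z (fun i => exp (z i)) a)
      (Sum.elim z (fun i => exp (z i)) b) = 0 := fun a b hab => hPW a b hab _ hzW
  simp only [Set.mem_iUnion]
  refine ⟨i, z i, ⟨hrel (Sum.inl i) (Sum.inr i) Sum.inl_ne_inr, hi⟩, fun l _ => ?_⟩
  simp only [hG]
  split_ifs with h1 h2 h3
  · rw [h1]
    rfl
  · exact hrel (Sum.inl i) (Sum.inl l) (fun h => h1 (Sum.inl_injective h).symm)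
  · exact hrel (Sum.inr i) (Sum.inl l) Sum.inr_ne_inl
  · exact absurd (hl (not_not.1 h2) (not_not.1 h3)) (hz.ne_zero i)

/-- both -/
theorem tuple_both {ι : Type*} [Finite ι] [Nontrivial ι] (W : Set (ι ⊕ ι → ℂ))
    (hW : ∀ a b : ι ⊕ ι, a ≠ b → ∃ P : MvPolynomial (Fin 2) ℤ, P ≠ 0 ∧
      ∀ x ∈ W, MvPolynomial.aeval ![x a, x b] P = 0) {δ : ℝ} (hδ : 0 < δ) (B : ℝ) :
    {z : ι → ℂ | (LinearIndependent ℚ z ∧ Sum.elim z (fun i => exp (z i)) ∈ W) ∧
      ∃ i, δ ≤ |(z i).re| ∨ ‖z i‖ ≤ B}.Finite := by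
  refine ((tuple_all W hW hδ).union (tuple_bdd W hW B)).subset ?_
  rintro z ⟨⟨h1, h2⟩, i, h3 | h3⟩
  · exact Or.inl ⟨h1, h2, i, h3⟩
  · exact Or.inr ⟨h1, h2, i, h3⟩

/-- no unitary points at infinity -/
theorem tuple_unit {ι : Type*} [Finite ι] [Nontrivial ι] (W : Set (ι ⊕ ι → ℂ))
    (hW : ∀ a b : ι ⊕ ι, a ≠ b → ∃ P : MvPolynomial (Fin 2) ℤ, P ≠ 0 ∧
      ∀ x ∈ W, MvPolynomial.aeval ![x a, x b] P = 0) {ε R : ℝ} (hε : 0 < ε)
    (h : ¬ ∃ x ∈ W, ∀ i, R ≤ ‖x (Sum.inl i)‖ ∧ |(x (Sum.inl i)).re| ≤ ε ∧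
      |‖x (Sum.inr i)‖ - 1| ≤ ε) :
    {z : ι → ℂ | LinearIndependent ℚ z ∧ Sum.elim z (fun i => exp (z i)) ∈ W}.Finite := by
  obtain ⟨δ, hδ, hδe⟩ := Metric.continuousAt_iff.1 (Real.continuous_exp.continuousAt (x := 0)) ε hε
  refine (tuple_both W hW (lt_min hε hδ) R).subset ?_
  rintro z ⟨h1, h2⟩
  refine ⟨⟨h1, h2⟩, ?_⟩
  by_contra hcon
  push Not at hcon
  apply h
  refine ⟨_, h2, fun i => ⟨(hcon i).2.le, ((hcon i).1.trans_le (min_le_left _ _)).le, ?_⟩⟩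
  have h4 := hδe (x := (z i).re) (by
    rw [Real.dist_eq, sub_zero]
    exact (hcon i).1.trans_le (min_le_right _ _))
  rw [Real.dist_eq, Real.exp_zero] at h4
  simp only [Sum.elim_inr]
  rw [norm_exp]
  exact h4.le

end Pool.Agent.H489.EX
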